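import Pool.Agent.Y321.SE2.HL

/-!
# Connectivity of the presentations at a fixed level, and the link lemmas
-/

set_option autoImplicit false

namespace Pool.Agent.Y321.SE2

open Matrix Pool.Agent.TH441.SSE2

lemma mkInH {l v w : ℤ} (hl : 1 ≤ l) (h1 : -(l * w) ≤ v) (h2 : v ≤ l * w) : InH l v w := by
  refine ⟨?_, h1, h2⟩
  by_contra hneg
  push Not at hneg
  nlinarith

/-- All valid presentations at level `l` are linked to the canonical one. -/
lemma hl_conn (x b c y l s t : ℤ) (hx : 1 ≤ x) (hc : 1 ≤ c) (hl : 1 ≤ l)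
    (hb : |b| ≤ l * (y - x - l * c - 6 * l))
    (h1 : InH l s t) (h2 : InH l (s - x) (t + c))
    (h3 : InH l (b + l * x - 2 * l * s) (y - l * c - 2 * l * t)) :
    Q (W x b c y l s t) (W x b c y l ((x + 1) / 2) (((x + 1) / 2 + l - 1) / l)) := by
  obtain ⟨A, hAdef⟩ : ∃ A, A = (x + 1) / 2 := ⟨_, rfl⟩
  rw [← hAdef]
  have hA1 : x ≤ 2 * A := by omega
  have hA2 : 2 * A ≤ x + 1 := by omega
  obtain ⟨h5, h6⟩ := ceil_spec A l hl
  obtain ⟨u, hu⟩ : ∃ u, u = (A + l - 1) / l := ⟨_, rfl⟩
  rw [← hu] at h5 h6 ⊢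
  have hbl := neg_abs_le b
  have hbu := le_abs_self b
  obtain ⟨h11, h12, h13⟩ := h1
  obtain ⟨h21, h22, h23⟩ := h2
  obtain ⟨h31, h32, h33⟩ := h3
  have hlc : 0 ≤ l * c := mul_nonneg (by linarith) (by linarith)
  have hu0 : 0 ≤ u := nonneg_of_mul hl (by linarith) h5
  -- canonical point is valid
  have c1 : InH l A u := mkInH hl (by linarith) h5
  have c2 : InH l (A - x) (u + c) := mkInH hl (by linarith) (by linarith)
  have hl2 : 0 ≤ l * (A + l - 1 - l * u) := mul_nonneg (by linarith) (by linarith)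
  have hl3 : 0 ≤ l * (x + 1 - 2 * A) := mul_nonneg (by linarith) (by linarith)
  have hll : 0 ≤ l * (l - 1) := mul_nonneg (by linarith) (by linarith)
  have hlx : 0 ≤ l * x := mul_nonneg (by linarith) (by linarith)
  have c3 : InH l (b + l * x - 2 * l * A) (y - l * c - 2 * l * u) :=
    mkInH hl (by nlinarith) (by nlinarith)
  have cc : ∀ s' t' : ℤ, InH l (s' - A) (t' - u) →
      InH l (b + l * x - 2 * l * s') (y - l * c - 2 * l * t') →
      Q (W x b c y l s' t') (W x b c y l A u) := by
    intro s' t' h h'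
    have := move_add x b c y l A u (s' - A) (t' - u) (by linarith) c1 h (by
      rw [add_sub_cancel, add_sub_cancel]; exact h') c2
    rw [add_sub_cancel, add_sub_cancel] at this
    exact this
  have pp : ∀ s' t' : ℤ, InH l (s' - s) (t' - t) →
      InH l (b + l * x - 2 * l * s') (y - l * c - 2 * l * t') →
      Q (W x b c y l s' t') (W x b c y l s t) := by
    intro s' t' h h'
    have := move_add x b c y l s t (s' - s) (t' - t) (by linarith) ⟨h11, h12, h13⟩ h (by
      rw [add_sub_cancel, add_sub_cancel]; exact h') ⟨h21, h22, h23⟩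
    rw [add_sub_cancel, add_sub_cancel] at this
    exact this
  rcases le_or_gt (l * u + A) (l * t + s) with ha | ha
  · rcases le_or_gt (l * u - A) (l * t - s) with hbb | hbb
    · -- above the canonical point
      exact cc s t (mkInH hl (by linarith) (by linarith)) ⟨h31, h32, h33⟩
    · -- raise `β`
      obtain ⟨h7, h8⟩ := ceil_spec ((l * u - A) - (l * t - s)) (2 * l) (by linarith)
      obtain ⟨k, hk⟩ : ∃ k, k = ((l * u - A) - (l * t - s) + 2 * l - 1) / (2 * l) := ⟨_, rfl⟩
      rw [← hk] at h7 h8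
      have hk0 : 0 ≤ l * k := by nlinarith
      have hX : InH l (b + l * x - 2 * l * (s - k * l)) (y - l * c - 2 * l * (t + k)) := by
        refine mkInH hl (by nlinarith) ?_
        have e1 : 0 ≤ l * ((l * u - A) - (l * t - s) + 2 * l - 1 - 2 * l * k) :=
          mul_nonneg (by linarith) (by linarith)
        nlinarith
      have q1 := cc (s - k * l) (t + k) (mkInH hl (by linarith) (by linarith)) hX
      have q2 := pp (s - k * l) (t + k) (mkInH hl (by linarith) (by linarith)) hX
      exact q2.symm.trans q1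
  · rcases le_or_gt (l * u - A) (l * t - s) with hbb | hbb
    · -- raise `α`
      obtain ⟨h7, h8⟩ := ceil_spec ((l * u + A) - (l * t + s)) (2 * l) (by linarith)
      obtain ⟨k, hk⟩ : ∃ k, k = ((l * u + A) - (l * t + s) + 2 * l - 1) / (2 * l) := ⟨_, rfl⟩
      rw [← hk] at h7 h8
      have hk0 : 0 ≤ l * k := by nlinarith
      have hX : InH l (b + l * x - 2 * l * (s + k * l)) (y - l * c - 2 * l * (t + k)) := by
        refine mkInH hl ?_ (by nlinarith)
        have e1 : 0 ≤ l * ((l * u + A) - (l * t + s) + 2 * l - 1 - 2 * l * k) :=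
          mul_nonneg (by linarith) (by linarith)
        nlinarith
      have q1 := cc (s + k * l) (t + k) (mkInH hl (by linarith) (by linarith)) hX
      have q2 := pp (s + k * l) (t + k) (mkInH hl (by linarith) (by linarith)) hX
      exact q2.symm.trans q1
    · -- below the canonical point
      exact (pp A u (mkInH hl (by linarith) (by linarith)) c3).symm

/-- Regime (b): `l c < x`. -/
lemma hl_b (x b c y l s t : ℤ) (hx : 1 ≤ x) (hc : 1 ≤ c) (hl : 1 ≤ l) (hlc : l * c < x)
    (hb : |b| + 1 ≤ l * (y - x - c - 7 * x))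
    (h1 : InH l s t) (h2 : InH l (s - x) (t + c))
    (h3 : InH l (b + l * x - 2 * l * s) (y - l * c - 2 * l * t)) :
    Q (W x b c y l s t) (K1 x b c y (cd x c)) := by
  obtain ⟨h4, h5⟩ := cd_spec x c hc
  have hlj : l ≤ cd x c := by
    have : l * c < cd x c * c := by linarith
    exact (lt_of_mul_lt_mul_right this (by linarith)).le
  have hlx : l ≤ x - 1 := by nlinarith
  have hlx' : 0 ≤ l * x := mul_nonneg (by linarith) (by linarith)
  have q1 := fan_level x b c y (cd x c) l hx hc h4 h5 hl hlj (by nlinarith)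
  have q2 := hl_conn x b c y l s t hx hc hl (by
    have e1 : 0 ≤ l * (x - 1 - l) := mul_nonneg (by linarith) (by linarith)
    have e2 : 0 ≤ l * (x - 1 - l * c) := mul_nonneg (by linarith) (by linarith)
    have e3 : 0 ≤ l * (c - 1) := mul_nonneg (by linarith) (by linarith)
    nlinarith) h1 h2 h3
  exact q2.trans q1.symm

end Pool.Agent.Y321.SE2
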