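import Pool.Agent.Y321.SE2.Link

/-!
# The wide case of the core link
-/

set_option autoImplicit false

namespace Pool.Agent.Y321.SE2

open Matrix Pool.Agent.TH441.SSE2

lemma le_of_mul_le {a b k : ℤ} (hk : 0 < k) (h : k * a ≤ k * b) : a ≤ b :=
  le_of_mul_le_mul_left h hk

/-- Bound on the offset in the case `m = 1`. -/
lemma x0_bound (p r s t σ f g h T : ℤ) (hs : 0 ≤ s) (hps : s < p) (hr : 0 ≤ r) (hrt : r < t)
    (hσ : 0 ≤ σ) (hg : 0 ≤ g) (hβ : 0 ≤ f * t - r * σ) (hγ : 0 ≤ g * p + h * s)
    (hα : T ≤ 5 * (f * s - p * σ)) (hδ : T ≤ 5 * (g * r + h * t)) (hT0 : 0 < T)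
    (hD : 500 * ((p * t - r * s) * (f * g + σ * h)) ≤ T ^ 2) :
    100 * ((t - r) * g + (p - s) * σ) ≤ T := by
  have key : (p * t - r * s) * (f * g + σ * h) =
      (p - s) * (g * (f * t - r * σ) + σ * (g * r + h * t)) +
      (t - r) * (g * (f * s - p * σ) + σ * (g * p + h * s)) := by ring
  have h1 : 0 ≤ (p - s) * g * (f * t - r * σ) :=
    mul_nonneg (mul_nonneg (by linarith) hg) hβ
  have h2 : 0 ≤ (t - r) * σ * (g * p + h * s) :=
    mul_nonneg (mul_nonneg (by linarith) hσ) hγ
  have h3 : (p - s) * σ * T ≤ (p - s) * σ * (5 * (g * r + h * t)) :=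
    mul_le_mul_of_nonneg_left hδ (mul_nonneg (by linarith) hσ)
  have h4 : (t - r) * g * T ≤ (t - r) * g * (5 * (f * s - p * σ)) :=
    mul_le_mul_of_nonneg_left hα (mul_nonneg (by linarith) hg)
  have h5 : T * (100 * ((t - r) * g + (p - s) * σ)) ≤ T * T := by nlinarith
  exact le_of_mul_le hT0 h5

lemma m_bound (p r s t σ f g h m T : ℤ) (hs : 1 ≤ s) (hps : 2 * s ≤ p) (hr : 0 ≤ r)
    (hrt : r < t) (hσ : 0 ≤ σ) (hg : 0 ≤ g) (hm : m * s ≤ p)
    (hα : T ≤ 5 * (f * s - p * σ)) (hδ : T ≤ 5 * (g * r + h * t)) (hT0 : 0 < T)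
    (hγ : 0 ≤ g * p + h * s)
    (hD : 500 * ((p * t - r * s) * (f * g + σ * h)) ≤ T ^ 2) :
    50 * (m * t * g + p * σ) ≤ T := by
  have ht : 0 < t := by linarith
  have key : (p * t - r * s) * (f * g + σ * h) =
      (p - s) * (g * (f * t - r * σ) + σ * (g * r + h * t)) +
      (t - r) * (g * (f * s - p * σ) + σ * (g * p + h * s)) := by ring
  have hq : 0 ≤ p * t - r * s := by nlinarith
  have hαp : 0 < f * s - p * σ := by linarith
  have h2 : 0 ≤ (t - r) * (g * (f * s - p * σ) + σ * (g * p + h * s)) :=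
    mul_nonneg (by linarith) (add_nonneg (mul_nonneg hg hαp.le) (mul_nonneg hσ hγ))
  -- `s β = t α + q σ`
  have h3 : s * (f * t - r * σ) = t * (f * s - p * σ) + (p * t - r * s) * σ := by ring
  have h4 : t * (f * s - p * σ) ≤ s * (f * t - r * σ) := by
    have := mul_nonneg hq hσ
    linarith
  have h5 : (p - s) * g * (t * T) ≤ (p - s) * g * (5 * (s * (f * t - r * σ))) :=
    mul_le_mul_of_nonneg_left (by nlinarith) (mul_nonneg (by linarith) hg)
  have h6 : (p - s) * σ * s * T ≤ (p - s) * σ * s * (5 * (g * r + h * t)) :=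
    mul_le_mul_of_nonneg_left hδ (mul_nonneg (mul_nonneg (by linarith) hσ) (by linarith))
  -- 5 s D ≥ (p - s) (t g + s σ) T
  have h7 : (p - s) * (t * g + s * σ) * T ≤
      5 * s * ((p * t - r * s) * (f * g + σ * h)) := by
    rw [key]
    have := mul_nonneg (show (0 : ℤ) ≤ s by linarith) h2
    nlinarith
  have h8 : p * (t * g + s * σ) * T ≤ 10 * s * ((p * t - r * s) * (f * g + σ * h)) := by
    have h9 : 0 ≤ (t * g + s * σ) * T :=
      mul_nonneg (add_nonneg (mul_nonneg ht.le hg) (mul_nonneg (by linarith) hσ)) hT0.le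
    have h10 : p * ((t * g + s * σ) * T) ≤ (2 * (p - s)) * ((t * g + s * σ) * T) :=
      mul_le_mul_of_nonneg_right (by linarith) h9
    nlinarith
  have h11 : (m * s) * (t * g * T) ≤ p * (t * g * T) :=
    mul_le_mul_of_nonneg_right hm (mul_nonneg (mul_nonneg ht.le hg) hT0.le)
  have h12 : s * ((m * t * g + p * σ) * T) ≤
      s * (10 * ((p * t - r * s) * (f * g + σ * h))) := by nlinarith
  have h13 : (m * t * g + p * σ) * T ≤ 10 * ((p * t - r * s) * (f * g + σ * h)) :=
    le_of_mul_le (by linarith) h12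
  have h14 : T * (50 * (m * t * g + p * σ)) ≤ T * T := by nlinarith
  exact le_of_mul_le hT0 h14

theorem core_H (p r s t σ f g h T : ℤ) (hs : 1 ≤ s) (hps : s < p) (hr : 0 ≤ r) (hrt : r < t)
    (hσ : 1 ≤ σ) (hg : 1 ≤ g) (hh : 0 ≤ h) (hc : 1 ≤ t * g - s * σ)
    (hβ : 0 ≤ f * t - r * σ)
    (hT : T = (f * s - p * σ) + (g * r + h * t))
    (hα : T ≤ 5 * (f * s - p * σ)) (hδ : T ≤ 5 * (g * r + h * t)) (hT0 : 0 < T)
    (hD : 500 * ((p * t - r * s) * (f * g + σ * h)) ≤ T ^ 2)
    (hcase : (2 * s - 1) * σ ≤ f * s - p * σ) :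
    ∃ A' : Matrix (Fin 2) (Fin 2) ℤ, Sim A' (!![p, r; s, t] * !![-σ, f; g, h]) ∧
      Q (!![-σ, f; g, h] * !![p, r; s, t]) A' := by
  have ht : 1 ≤ t := by linarith
  have hp : 1 ≤ p := by linarith
  have hγ : 0 ≤ g * p + h * s :=
    add_nonneg (mul_nonneg (by linarith) (by linarith)) (mul_nonneg hh (by linarith))
  obtain ⟨hm1, hm2⟩ := ceil_spec p (2 * s) (by linarith)
  obtain ⟨m, hm⟩ : ∃ m, m = (p + 2 * s - 1) / (2 * s) := ⟨_, rfl⟩
  rw [← hm] at hm1 hm2
  have hm0 : 1 ≤ m := by
    by_contra hneg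
    push Not at hneg
    nlinarith
  -- `p - m s ≥ 1`
  have hpm : 1 ≤ p - m * s := by
    rcases le_or_gt (2 * s) p with h1 | h1
    · linarith
    · have : m ≤ 1 := by
        by_contra hneg
        push Not at hneg
        nlinarith
      have h2 : m = 1 := le_antisymm this hm0
      rw [h2]; linarith
  have hmt : t ≤ m * t := le_mul_of_one_le_left (by linarith) hm0
  obtain ⟨x, hx⟩ : ∃ x, x = (m * t - r) * g + (p - m * s) * σ := ⟨_, rfl⟩
  obtain ⟨b, hb⟩ : ∃ b, b = (p - m * s) * (f - m * σ) - (m * t - r) * (h + m * g) := ⟨_, rfl⟩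
  obtain ⟨c, hcd⟩ : ∃ c, c = t * g - s * σ := ⟨_, rfl⟩
  obtain ⟨y, hy⟩ : ∃ y, y = s * (f - m * σ) + t * (h + m * g) := ⟨_, rfl⟩
  have hyx : y - x = T := by rw [hy, hx, hT]; ring
  have hx0 : 1 ≤ x := by
    have h1 : 0 ≤ (m * t - r) * g := mul_nonneg (by linarith) (by linarith)
    have h2 : 1 * 1 ≤ (p - m * s) * σ := mul_le_mul hpm hσ (by norm_num) (by linarith)
    linarith
  have h2mσ : 2 * m * σ ≤ f := by
    have h1 : (2 * s * m) * σ ≤ (p + 2 * s - 1) * σ :=
      mul_le_mul_of_nonneg_right hm2 (by linarith)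
    have h2 : s * (2 * m * σ) ≤ s * f := by nlinarith
    exact le_of_mul_le (by linarith) h2
  have hms0 : 0 ≤ m * σ := mul_nonneg (by linarith) (by linarith)
  have hreg : x ≤ m * c ∨ |b| + 1 ≤ m * (y - x - c - 7 * x) := by
    rcases le_or_gt x (m * c) with h1 | h1
    · exact Or.inl h1
    right
    rw [hyx]
    rcases eq_or_lt_of_le hm0 with h2 | h2
    · -- `m = 1`
      subst h2
      have hx' : x = (t - r) * g + (p - s) * σ := by rw [hx]; ring
      have hxb := x0_bound p r s t σ f g h T (by linarith) hps hr hrt (by linarith)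
        (by linarith) hβ hγ hα hδ hT0 hD
      rw [← hx'] at hxb
      have e1 : (p - s) * (f - σ) ≤ (f * s - p * σ) + (p - s) * σ := by
        have h3 : s * ((p - s) * (f - σ)) = (p - s) * ((f * s - p * σ) + (p - s) * σ) := by ring
        have h4 : (p - s) * ((f * s - p * σ) + (p - s) * σ) ≤
            s * ((f * s - p * σ) + (p - s) * σ) :=
          mul_le_mul_of_nonneg_right (by linarith) (by nlinarith)
        exact le_of_mul_le (show (0 : ℤ) < s by linarith) (by linarith)
      have e2 : 0 ≤ (t - r) * (h + g) := mul_nonneg (by linarith) (by linarith)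
      have e3 : (t - r) * g ≤ x := by
        have : 0 ≤ (p - s) * σ := mul_nonneg (by linarith) (by linarith)
        linarith
      have e4 : (p - s) * σ ≤ x := by
        have : 0 ≤ (t - r) * g := mul_nonneg (by linarith) (by linarith)
        linarith
      have e5 : (t - r) * h ≤ g * r + h * t := by
        have h3 : 0 ≤ r * h := mul_nonneg hr hh
        have h4 : 0 ≤ g * r := mul_nonneg (by linarith) hr
        nlinarith
      have e6 : 0 ≤ (p - s) * (f - σ) := mul_nonneg (by linarith) (by linarith)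
      have hb' : b = (p - s) * (f - σ) - (t - r) * (h + g) := by rw [hb]; ring
      have e7 : |b| ≤ max ((f * s - p * σ) + x) ((g * r + h * t) + x) := by
        rw [abs_le]
        constructor
        · have := le_max_right ((f * s - p * σ) + x) ((g * r + h * t) + x)
          rw [hb']; nlinarith
        · have := le_max_left ((f * s - p * σ) + x) ((g * r + h * t) + x)
          rw [hb']; linarith
      rcases max_cases ((f * s - p * σ) + x) ((g * r + h * t) + x) with ⟨h5, _⟩ | ⟨h5, _⟩ <;>
        rw [h5] at e7 <;> linarith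
    · -- `m ≥ 2`
      have h2s : 2 * s ≤ p := by nlinarith
      have hmsp : m * s ≤ p := by linarith
      have hw := m_bound p r s t σ f g h m T hs h2s hr hrt (by linarith) (by linarith) hmsp
        hα hδ hT0 hγ hD
      obtain ⟨w, hwd⟩ : ∃ w, w = m * t * g + p * σ := ⟨_, rfl⟩
      rw [← hwd] at hw
      have f1 : 0 ≤ r * g := mul_nonneg hr (by linarith)
      have f2 : 0 ≤ m * s * σ := mul_nonneg (mul_nonneg (by linarith) (by linarith)) (by linarith)
      have f3 : x ≤ w := by rw [hx, hwd]; nlinarith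
      have f4 : 2 * c < x := by
        have : 2 * c ≤ m * c := mul_le_mul_of_nonneg_right (by linarith) (by linarith)
        linarith
      have f5 : 1 ≤ c := by linarith
      have f6 : 0 ≤ p * σ := mul_nonneg (by linarith) (by linarith)
      have f7 : 0 ≤ m * t * g := mul_nonneg (mul_nonneg (by linarith) (by linarith)) (by linarith)
      have e1 : (p - m * s) * (f - m * σ) ≤ m * ((f * s - p * σ) + w) := by
        have h3 : (p - m * s) * (f - m * σ) ≤ (p - m * s) * f :=
          mul_le_mul_of_nonneg_left (by linarith) (by linarith)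
        have h4 : s * ((p - m * s) * f) = (p - m * s) * ((f * s - p * σ) + p * σ) := by ring
        have h5 : (p - m * s) * ((f * s - p * σ) + p * σ) ≤
            (m * s) * ((f * s - p * σ) + p * σ) :=
          mul_le_mul_of_nonneg_right (by linarith) (by linarith)
        have h6 : (p - m * s) * f ≤ m * ((f * s - p * σ) + p * σ) :=
          le_of_mul_le (show (0 : ℤ) < s by linarith) (by nlinarith)
        have h7 : m * ((f * s - p * σ) + p * σ) ≤ m * ((f * s - p * σ) + w) :=
          mul_le_mul_of_nonneg_left (by linarith) (by linarith)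
        linarith
      have e2 : (m * t - r) * (h + m * g) ≤ m * ((g * r + h * t) + w) := by
        have hmg : 0 ≤ m * g := mul_nonneg (by linarith) (by linarith)
        have h3 : (m * t - r) * (h + m * g) ≤ (m * t) * (h + m * g) :=
          mul_le_mul_of_nonneg_right (by linarith) (by linarith)
        have h4 : (m * t) * (h + m * g) = m * (h * t + m * t * g) := by ring
        have h5 : 0 ≤ g * r := mul_nonneg (by linarith) hr
        have h6 : m * (h * t + m * t * g) ≤ m * ((g * r + h * t) + w) :=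
          mul_le_mul_of_nonneg_left (by linarith) (by linarith)
        linarith
      have e3 : 0 ≤ (p - m * s) * (f - m * σ) := mul_nonneg (by linarith) (by linarith)
      have e4 : 0 ≤ (m * t - r) * (h + m * g) :=
        mul_nonneg (by linarith) (add_nonneg hh (mul_nonneg (by linarith) (by linarith)))
      have g1 : m * ((f * s - p * σ) + w) + m * 1 ≤ m * (T - c - 7 * x) := by
        have : (f * s - p * σ) + w + 1 ≤ T - c - 7 * x := by linarith
        have := mul_le_mul_of_nonneg_left this (show (0 : ℤ) ≤ m by linarith)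
        linarith
      have g2 : m * ((g * r + h * t) + w) + m * 1 ≤ m * (T - c - 7 * x) := by
        have : (g * r + h * t) + w + 1 ≤ T - c - 7 * x := by linarith
        have := mul_le_mul_of_nonneg_left this (show (0 : ℤ) ≤ m by linarith)
        linarith
      have g3 : |b| + 1 ≤ m * (T - c - 7 * x) := by
        rcases abs_cases b with ⟨h5, _⟩ | ⟨h5, _⟩ <;> rw [h5, hb] <;> linarith
      exact g3
  obtain ⟨A', h1, h2⟩ := link_H !![p - m * s, r - m * t; s, t] !![-σ, f - m * σ; g, h + m * g]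
    m x b c y hm0 (by rw [hcd]; exact hc)
    (by
      refine ⟨?_, ?_, ?_⟩ <;> simp <;> linarith)
    (by
      refine ⟨?_, ?_, ?_⟩ <;> simp <;> linarith)
    (by
      simp only [Matrix.of_apply, Matrix.cons_val', Matrix.cons_val_zero, Matrix.cons_val_one,
        Matrix.cons_val_fin_one, abs_neg]
      rw [abs_of_nonneg (by linarith : (0 : ℤ) ≤ σ)]; linarith)
    (by
      simp only [Matrix.of_apply, Matrix.cons_val', Matrix.cons_val_zero, Matrix.cons_val_one,
        Matrix.cons_val_fin_one]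
      rw [abs_of_nonneg (by linarith : (0 : ℤ) ≤ g)]; linarith)
    (by
      rw [hx, hb, hcd, hy]
      ext i j; fin_cases i <;> fin_cases j <;>
        simp [Matrix.mul_apply, Fin.sum_univ_two] <;> ring)
    (by
      have : 0 ≤ m * c := mul_nonneg (by linarith) (by linarith)
      linarith) hreg
  refine ⟨A', h1.trans ⟨!![1, m; 0, 1], by simp [Matrix.det_fin_two], ?_⟩, ?_⟩
  · rw [hx, hb, hcd, hy]
    ext i j; fin_cases i <;> fin_cases j <;>
      simp [Matrix.mul_apply, Fin.sum_univ_two] <;> ring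
  · have e : !![-σ, f - m * σ; g, h + m * g] * !![p - m * s, r - m * t; s, t] =
        (!![-σ, f; g, h] * !![p, r; s, t] : Matrix (Fin 2) (Fin 2) ℤ) := by
      ext i j; fin_cases i <;> fin_cases j <;>
        simp [Matrix.mul_apply, Fin.sum_univ_two] <;> ring
    rw [e] at h2
    exact h2

end Pool.Agent.Y321.SE2
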