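import Pool.Agent.Y321.SE2.CoreN

/-!
# The core link
-/

set_option autoImplicit false

namespace Pool.Agent.Y321.SE2

open Matrix Pool.Agent.TH441.SSE2

lemma g_pos {p r s t e f g h : ℤ} (hs : 0 ≤ s) (hps : s < p) (hr : 0 ≤ r) (hrt : r < t)
    (hc : 1 ≤ s * e + t * g) (hb : 1 ≤ p * f + r * h) (hγ : 1 ≤ g * p + h * s)
    (hE : 0 < f * g - e * h) : 1 ≤ g := by
  by_contra hneg
  push Not at hneg
  have hg : g ≤ 0 := by linarith
  have hp : 0 < p := by linarith
  have ht : 0 < t := by linarith
  have h1 : t * g ≤ 0 := mul_nonpos_of_nonneg_of_nonpos ht.le hg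
  have h2 : g * p ≤ 0 := mul_nonpos_of_nonpos_of_nonneg hg hp.le
  have hse : 1 ≤ s * e := by linarith
  have hhs : 1 ≤ h * s := by linarith
  have hs0 : 0 < s := by
    rcases hs.lt_or_eq with h3 | h3
    · exact h3
    · rw [← h3] at hse; linarith
  have he : 0 < e := by
    by_contra h3
    push Not at h3
    have := mul_nonpos_of_nonneg_of_nonpos hs h3
    linarith
  have hh : 0 < h := by
    by_contra h3
    push Not at h3
    have := mul_nonpos_of_nonpos_of_nonneg h3 hs
    linarith
  have heh : 0 < e * h := mul_pos he hh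
  have hfg : 0 < f * g := by linarith
  have hf : f < 0 := by
    by_contra h3
    push Not at h3
    have := mul_nonpos_of_nonneg_of_nonpos h3 hg
    linarith
  have k1 : p * (-f) < r * h := by linarith
  have k2 : t * (-g) < s * e := by linarith
  have k3 : (p * (-f)) * (t * (-g)) ≤ (r * h) * (s * e) :=
    mul_le_mul k1.le k2.le (mul_nonneg ht.le (by linarith))
      (mul_nonneg hr hh.le)
  have k4 : (p * t) * (e * h) ≤ (p * t) * (f * g) :=
    mul_le_mul_of_nonneg_left (by linarith) (mul_nonneg hp.le ht.le)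
  have k5 : (e * h) * (p * t) ≤ (e * h) * (r * s) := by
    have e1 : (p * (-f)) * (t * (-g)) = (p * t) * (f * g) := by ring
    have e2 : (r * h) * (s * e) = (e * h) * (r * s) := by ring
    have e3 : (p * t) * (e * h) = (e * h) * (p * t) := by ring
    linarith
  have k6 : p * t ≤ r * s := le_of_mul_le heh k5
  have k7 : 0 ≤ (p - s) * t := mul_nonneg (by linarith) ht.le
  have k8 : 0 < (t - r) * s := mul_pos (by linarith) hs0
  have e : p * t - r * s = (p - s) * t + (t - r) * s := by ring
  linarith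

lemma f_pos {p r s t e f g h : ℤ} (hs : 0 ≤ s) (hps : s < p) (hr : 0 ≤ r) (hrt : r < t)
    (hg : 1 ≤ g) (hb : 1 ≤ p * f + r * h) (hβ : 1 ≤ e * r + f * t)
    (hE : 0 < f * g - e * h) : 1 ≤ f := by
  by_contra hneg
  push Not at hneg
  have hf : f ≤ 0 := by linarith
  have h1 : p * f ≤ 0 := mul_nonpos_of_nonneg_of_nonpos (by linarith) hf
  have h2 : f * t ≤ 0 := mul_nonpos_of_nonpos_of_nonneg hf (by linarith)
  have h3 : f * g ≤ 0 := mul_nonpos_of_nonpos_of_nonneg hf (by linarith)
  have he : 0 < e := by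
    by_contra h4
    push Not at h4
    have := mul_nonpos_of_nonpos_of_nonneg h4 hr
    linarith
  have hh : 0 < h := by
    by_contra h4
    push Not at h4
    have := mul_nonpos_of_nonneg_of_nonpos hr h4
    linarith
  have := mul_pos he hh
  linarith

theorem core_link_e (p r s t e f g h T : ℤ) (hs : 0 ≤ s) (hps : s < p) (hr : 0 ≤ r) (hrt : r < t)
    (he : e < 0) (hf : 1 ≤ f) (hg : 1 ≤ g)
    (hc : 1 ≤ s * e + t * g)
    (hβ : 1 ≤ e * r + f * t) (hγ : 1 ≤ g * p + h * s)
    (hT : T = (e * p + f * s) + (g * r + h * t))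
    (hα : T ≤ 5 * (e * p + f * s)) (hδ : T ≤ 5 * (g * r + h * t)) (hT0 : 0 < T)
    (hE : 0 < f * g - e * h)
    (hD : 500 * ((p * t - r * s) * (f * g - e * h)) ≤ T ^ 2)
    (hw : (p - s) * (e + f) - (t - r) * (g + h) ≠ 0) :
    ∃ A' : Matrix (Fin 2) (Fin 2) ℤ, Sim A' (!![p, r; s, t] * !![e, f; g, h]) ∧
      Q (!![e, f; g, h] * !![p, r; s, t]) A' := by
  obtain ⟨σ, hσ⟩ : ∃ σ, σ = -e := ⟨_, rfl⟩
  have he' : e = -σ := by linarith
  subst he'
  have hσ1 : 1 ≤ σ := by omega
  have hs1 : 1 ≤ s := by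
    by_contra hneg
    push Not at hneg
    have h0 : s = 0 := by omega
    rw [h0] at hα
    have : 0 < σ * p := mul_pos (by linarith) (by linarith)
    linarith
  have e1 : f * s - p * σ = -σ * p + f * s := by ring
  have e2 : f * t - r * σ = -σ * r + f * t := by ring
  have e3 : t * g - s * σ = s * -σ + t * g := by ring
  have e4 : f * g + σ * h = f * g - -σ * h := by ring
  have e5 : (p - s) * (f - σ) - (t - r) * (g + h) = (p - s) * (-σ + f) - (t - r) * (g + h) := by
    ring
  rcases le_or_gt 0 h with hh | hh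
  · rcases le_or_gt ((2 * s - 1) * σ) (f * s - p * σ) with hcs | hcs
    · exact core_H p r s t σ f g h T hs1 hps hr hrt hσ1 hg hh (by rw [e3]; exact hc)
        (by rw [e2]; linarith) (by rw [e1]; exact hT) (by rw [e1]; exact hα) hδ hT0
        (by rw [e4]; exact hD) hcs
    · exact core_N p r s t σ f g h T hs1 hps hr hrt hσ1 hf hg (by rw [e3]; exact hc)
        (by rw [e2]; exact hβ) hγ (by rw [e1]; exact hT) (by rw [e1]; exact hα) hδ hT0
        (by rw [e4]; exact hE) (by rw [e4]; exact hD) (by rw [e5]; exact hw)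
        (Or.inl ⟨hh, hcs⟩)
  · exact core_N p r s t σ f g h T hs1 hps hr hrt hσ1 hf hg (by rw [e3]; exact hc)
      (by rw [e2]; exact hβ) hγ (by rw [e1]; exact hT) (by rw [e1]; exact hα) hδ hT0
      (by rw [e4]; exact hE) (by rw [e4]; exact hD) (by rw [e5]; exact hw)
      (Or.inr hh)

theorem core_link (p r s t e f g h T : ℤ) (hs : 0 ≤ s) (hps : s < p) (hr : 0 ≤ r) (hrt : r < t)
    (hc : 1 ≤ s * e + t * g) (hb : 1 ≤ p * f + r * h)
    (hβ : 1 ≤ e * r + f * t) (hγ : 1 ≤ g * p + h * s)
    (hT : T = (e * p + f * s) + (g * r + h * t))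
    (hα : T ≤ 5 * (e * p + f * s)) (hδ : T ≤ 5 * (g * r + h * t)) (hT0 : 0 < T)
    (hE : 0 < f * g - e * h)
    (hD : 500 * ((p * t - r * s) * (f * g - e * h)) ≤ T ^ 2)
    (hw : (p - s) * (e + f) - (t - r) * (g + h) ≠ 0) :
    ∃ A' : Matrix (Fin 2) (Fin 2) ℤ, Sim A' (!![p, r; s, t] * !![e, f; g, h]) ∧
      Q (!![e, f; g, h] * !![p, r; s, t]) A' := by
  have hg := g_pos hs hps hr hrt hc hb hγ hE
  have hf := f_pos hs hps hr hrt hg hb hβ hE
  rcases lt_or_ge e 0 with he | he
  · exact core_link_e p r s t e f g h T hs hps hr hrt he hf hg hc hβ hγ hT hα hδ hT0 hE hD hw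
  · rcases lt_or_ge h 0 with hh | hh
    · obtain ⟨A', h1, h2⟩ := core_link_e t s r p h g f e T hr hrt hs hps hh hg hf (by linarith)
        (by linarith) (by linarith) (by rw [hT]; ring) (by linarith) (by linarith) hT0
        (by linarith) (by
          have e1 : (t * p - s * r) * (g * f - h * e) = (p * t - r * s) * (f * g - e * h) := by
            ring
          rw [e1]; exact hD)
        (by
          intro h0
          apply hw
          linarith)
      refine ⟨A', h1.trans ⟨!![0, 1; 1, 0], by simp [Matrix.det_fin_two], ?_⟩, ?_⟩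
      · ext i j; fin_cases i <;> fin_cases j <;>
          simp [Matrix.mul_apply, Fin.sum_univ_two] <;> ring
      · have e1 : (!![h, g; f, e] * !![t, s; r, p] : Matrix (Fin 2) (Fin 2) ℤ) =
            !![g * r + h * t, g * p + h * s; e * r + f * t, e * p + f * s] := by
          ext i j; fin_cases i <;> fin_cases j <;>
            simp [Matrix.mul_apply, Fin.sum_univ_two] <;> ring
        have e2 : (!![e, f; g, h] * !![p, r; s, t] : Matrix (Fin 2) (Fin 2) ℤ) =
            !![e * p + f * s, e * r + f * t; g * p + h * s, g * r + h * t] := by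
          ext i j; fin_cases i <;> fin_cases j <;>
            simp [Matrix.mul_apply, Fin.sum_univ_two]
        rw [e1] at h2
        rw [e2]
        exact (Q.swap _ _ _ _ (by linarith) (by linarith) (by linarith) (by linarith)).trans h2
    · refine ⟨!![p, r; s, t] * !![e, f; g, h], Sim.refl _, ?_⟩
      refine Q.of_elem !![e, f; g, h] !![p, r; s, t] ?_ ?_ rfl rfl
      · intro i j; fin_cases i <;> fin_cases j <;> simp <;> linarith
      · intro i j; fin_cases i <;> fin_cases j <;> simp <;> linarith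

end Pool.Agent.Y321.SE2
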