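import Pool.Agent.Y321.SE2.Level

/-!
# The narrow case of the core link
-/

set_option autoImplicit false

namespace Pool.Agent.Y321.SE2

open Matrix Pool.Agent.TH441.SSE2

/-- The choice of the level, and its inequalities. -/
lemma exists_level' (p r s t σ f g h : ℤ) (hs : 1 ≤ s) (hps : s < p) (hr : 0 ≤ r) (hrt : r < t)
    (hσ : 1 ≤ σ) (hf : 1 ≤ f) (hg : 1 ≤ g) (hβ : 1 ≤ f * t - r * σ) (hγ : 1 ≤ g * p + h * s)
    (hα0 : 0 < f * s - p * σ) (hδ0 : 0 < g * r + h * t)
    (hE : 0 < f * g + σ * h)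
    (hαδ : 79 * ((p * t - r * s) * (f * g + σ * h)) ≤ (f * s - p * σ) * (g * r + h * t))
    (hcase : (0 ≤ h ∧ f * s - p * σ < (2 * s - 1) * σ) ∨ h < 0) :
    ∃ l : ℤ, 2 ≤ l ∧ l * (p - s) ≤ s ∧ (l - 1) * (t - r) ≤ r ∧ σ ≤ l * (f - σ) ∧
      g ≤ l * (g + h) ∧ 0 ≤ f - σ ∧ 0 ≤ g + h := by
  have ha : 1 ≤ p - s := by linarith
  have hd : 1 ≤ t - r := by linarith
  have ht : 1 ≤ t := by linarith
  have hq : 1 ≤ p * t - r * s := by
    have h1 : 0 ≤ (p - s) * t := mul_nonneg (by linarith) (by linarith)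
    have h2 : 1 * 1 ≤ (t - r) * s := mul_le_mul hd hs (by norm_num) (by linarith)
    have e : p * t - r * s = (p - s) * t + (t - r) * s := by ring
    linarith
  have hD0 : 0 < (p * t - r * s) * (f * g + σ * h) := mul_pos (by linarith) hE
  have key : (p * t - r * s) * (f * g + σ * h) =
      (p - s) * (g * (f * t - r * σ) + σ * (g * r + h * t)) +
      (t - r) * (g * (f * s - p * σ) + σ * (g * p + h * s)) := by ring
  have kt : t * (f * g + σ * h) = g * (f * t - r * σ) + σ * (g * r + h * t) := by ring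
  have ks : s * (f * g + σ * h) = g * (f * s - p * σ) + σ * (g * p + h * s) := by ring
  have kr : r * (f * g + σ * h) = f * (g * r + h * t) - h * (f * t - r * σ) := by ring
  have ksβ : s * (f * t - r * σ) = t * (f * s - p * σ) + (p * t - r * s) * σ := by ring
  have hgβ : 0 ≤ g * (f * t - r * σ) := mul_nonneg (by linarith) (by linarith)
  have hσδ : 0 ≤ σ * (g * r + h * t) := mul_nonneg (by linarith) (by linarith)
  have hgα : 0 ≤ g * (f * s - p * σ) := mul_nonneg (by linarith) (by linarith)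
  have hσγ : 0 ≤ σ * (g * p + h * s) := mul_nonneg (by linarith) (by linarith)
  have pos1 := mul_nonneg (show (0 : ℤ) ≤ p - s by linarith) hgβ
  have pos2 := mul_nonneg (show (0 : ℤ) ≤ p - s by linarith) hσδ
  have pos3 := mul_nonneg (show (0 : ℤ) ≤ t - r by linarith) hgα
  have pos4 := mul_nonneg (show (0 : ℤ) ≤ t - r by linarith) hσγ
  have key' : (p * t - r * s) * (f * g + σ * h) =
      (p - s) * (g * (f * t - r * σ)) + (p - s) * (σ * (g * r + h * t)) +
      ((t - r) * (g * (f * s - p * σ)) + (t - r) * (σ * (g * p + h * s))) := by ring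
  have b1 : (p - s) * σ * (g * r + h * t) ≤ (p * t - r * s) * (f * g + σ * h) := by
    have e : (p - s) * σ * (g * r + h * t) = (p - s) * (σ * (g * r + h * t)) := by ring
    rw [e, key']; linarith
  have b2 : (t - r) * g * (f * s - p * σ) ≤ (p * t - r * s) * (f * g + σ * h) := by
    have e : (t - r) * g * (f * s - p * σ) = (t - r) * (g * (f * s - p * σ)) := by ring
    rw [e, key']; linarith
  have b5 : (p - s) * (g * (f * t - r * σ)) ≤ (p * t - r * s) * (f * g + σ * h) := by
    rw [key']; linarith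
  have b4 : (t - r) * s * (f * g + σ * h) ≤ (p * t - r * s) * (f * g + σ * h) := by
    have e : (t - r) * s * (f * g + σ * h) =
        (t - r) * (g * (f * s - p * σ)) + (t - r) * (σ * (g * p + h * s)) := by ring
    rw [e, key']; linarith
  have hte : σ * (g * r + h * t) ≤ t * (f * g + σ * h) := by rw [kt]; linarith
  have hfs : s * (f - σ) = (f * s - p * σ) + (p - s) * σ := by ring
  -- `2 a ≤ s` and `d ≤ r`
  have hbase : 2 * (p - s) ≤ s ∧ (t - r) ≤ r := by
    rcases hcase with ⟨hh, hcase⟩ | hh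
    · exact ⟨base_a1 hσ hδ0 hD0 hαδ b1 hcase,
        base_a2 hs hσ hδ0 hD0 hE (by ring) hαδ b4 hte hcase⟩
    · have hr1 : 1 ≤ r := by
        by_contra hneg
        push Not at hneg
        have h0 : r = 0 := by omega
        rw [h0] at hδ0
        have : h * t < 0 := mul_neg_of_neg_of_pos hh (by linarith)
        linarith
      exact base_c hs hr1 ha hd hf hg hσ hα0 hδ0 hE rfl hh hrt (by ring) hαδ kr ks hβ hγ
  obtain ⟨l, hl, n3, n4, hor⟩ := level ha hd hbase.1 hbase.2
  obtain ⟨n1, n5⟩ := level_n1 hs hσ ha hl hα0 hδ0 hD0 hE (by ring) hd hαδ b1 b4 hte hfs hor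
  refine ⟨l, hl, n3, n4, n1, ?_, n5, ?_⟩
  · rcases le_or_gt 0 h with hh | hh
    · have h1 : 0 ≤ (l - 1) * g := mul_nonneg (by linarith) (by linarith)
      have h2 : 0 ≤ l * h := mul_nonneg (by linarith) hh
      have e : l * (g + h) = g + (l - 1) * g + l * h := by ring
      linarith
    · have hr1 : 1 ≤ r := by linarith [hbase.2]
      have hgσ : -h < g := by
        have h1 : r * (-h) < r * g := by
          have h2 : r * (-h) ≤ t * (-h) := mul_le_mul_of_nonneg_right hrt.le (by linarith)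
          have e1 : t * (-h) = -(h * t) := by ring
          have e2 : r * g = g * r := by ring
          linarith
        exact lt_of_mul_lt_mul_left h1 (by linarith)
      have main := level_main (σ₂ := -h) (f := f) (γ := 0) ha hd hr1 ht hs hg hσ hrt hl hα0 hδ0 hD0 (by omega) hgσ
        hαδ hq ksβ b2 b5 hor
      have hgoal : r * g ≤ r * (l * (g + h)) := by
        have e1 : r * (l * (g + h)) - r * g =
            (l - 1) * ((g * r + h * t) + (t - r) * (-h)) - r * (-h) := by ring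
        linarith
      exact le_of_mul_le (by linarith) hgoal
  · rcases le_or_gt 0 h with hh | hh
    · linarith
    · have hr1 : 1 ≤ r := by linarith [hbase.2]
      have h2 : h * t ≤ h * r := mul_le_mul_of_nonpos_left hrt.le hh.le
      have h3 : 0 < r * (g + h) := by
        have e : r * (g + h) = g * r + h * r := by ring
        linarith
      exact ((mul_pos_iff_of_pos_left (show (0 : ℤ) < r by linarith)).mp h3).le

lemma exists_level (p r s t σ f g h T : ℤ) (hs : 1 ≤ s) (hps : s < p) (hr : 0 ≤ r) (hrt : r < t)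
    (hσ : 1 ≤ σ) (hf : 1 ≤ f) (hg : 1 ≤ g) (hβ : 1 ≤ f * t - r * σ) (hγ : 1 ≤ g * p + h * s)
    (hT : T = (f * s - p * σ) + (g * r + h * t))
    (hα : T ≤ 5 * (f * s - p * σ)) (hδ : T ≤ 5 * (g * r + h * t)) (hT0 : 0 < T)
    (hE : 0 < f * g + σ * h)
    (hD : 500 * ((p * t - r * s) * (f * g + σ * h)) ≤ T ^ 2)
    (hcase : (0 ≤ h ∧ f * s - p * σ < (2 * s - 1) * σ) ∨ h < 0) :
    ∃ l : ℤ, 2 ≤ l ∧ l * (p - s) ≤ s ∧ (l - 1) * (t - r) ≤ r ∧ σ ≤ l * (f - σ) ∧
      g ≤ l * (g + h) ∧ 0 ≤ f - σ ∧ 0 ≤ g + h := by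
  have hq : 0 ≤ p * t - r * s := by
    have h1 : 0 ≤ (p - s) * t := mul_nonneg (by linarith) (by linarith)
    have h2 : 0 ≤ (t - r) * s := mul_nonneg (by linarith) (by linarith)
    have e : p * t - r * s = (p - s) * t + (t - r) * s := by ring
    linarith
  have h0 : 0 ≤ (p * t - r * s) * (f * g + σ * h) := mul_nonneg hq hE.le
  have h1 := prod_bound hT hα hδ hD
  exact exists_level' p r s t σ f g h hs hps hr hrt hσ hf hg hβ hγ (by linarith) (by linarith) hE
    (by linarith) hcase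

/-- The bound for the second entry in the narrow case. -/
lemma c_bound (p r s t σ f g h l T b x : ℤ) (hs : 1 ≤ s) (hr : 0 ≤ r)
    (hrt : r < t) (hσ : 1 ≤ σ) (hg : 1 ≤ g) (hl2 : 2 ≤ l)
    (hT : T = (f * s - p * σ) + (g * r + h * t))
    (hα : T ≤ 5 * (f * s - p * σ)) (hδ : T ≤ 5 * (g * r + h * t)) (hT0 : 0 < T)
    (hps : s < p) (n2 : g ≤ l * (g + h)) (hgh : 0 ≤ g + h)
    (hx : x = (t - r) * g + (p - s) * σ) (hxb : 100 * x ≤ T)
    (hbx : b ≤ x) :
    t * g - s * σ + 1 ≤ l * (T - b - 7 * x) := by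
  have hdg : 0 ≤ (t - r) * g := mul_nonneg (by linarith) (by linarith)
  have haσ : 0 ≤ (p - s) * σ := mul_nonneg (by linarith) (by linarith)
  have hx0 : 0 ≤ x := by linarith
  have hsσ : 1 * 1 ≤ s * σ := mul_le_mul hs hσ (by norm_num) (by linarith)
  have hlx : 0 ≤ (l - 1) * x := mul_nonneg (by linarith) hx0
  have hlδ : 0 ≤ (l - 1) * (g * r + h * t) := mul_nonneg (by linarith) (by linarith)
  have hcb : t * g - s * σ + 1 ≤ l * ((g * r + h * t) + 2 * x) := by
    rcases le_or_gt 0 h with hh | hh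
    · have h2 : 0 ≤ t * h := mul_nonneg (by linarith) hh
      have e1 : t * g = (t - r) * g + (g * r + h * t) - t * h := by ring
      have e2 : l * ((g * r + h * t) + 2 * x) =
          (l - 1) * (g * r + h * t) + (g * r + h * t) + 2 * ((l - 1) * x) + 2 * x := by ring
      linarith
    · have h5 : r * g ≤ r * (l * (g + h)) := mul_le_mul_of_nonneg_left n2 hr
      have h7 : (t - r) * (-h) ≤ (t - r) * g :=
        mul_le_mul_of_nonneg_left (by linarith) (by linarith)
      have h8 : l * ((t - r) * (-h)) ≤ l * ((t - r) * g) :=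
        mul_le_mul_of_nonneg_left h7 (by linarith)
      have h10 : l * ((t - r) * g) ≤ l * x := mul_le_mul_of_nonneg_left (by linarith)
        (by linarith)
      have e1 : t * g = (t - r) * g + (g * r + h * t) + t * (-h) := by ring
      have e2 : t * (-h) = (l - 1) * (g * r + h * t) + l * ((t - r) * (-h)) -
          (r * (l * (g + h)) - r * g) := by ring
      have e3 : l * ((g * r + h * t) + 2 * x) =
          (l - 1) * (g * r + h * t) + (g * r + h * t) + l * x + (l - 1) * x + x := by ring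
      linarith
  have h2 : (g * r + h * t) + 2 * x ≤ T - b - 7 * x := by linarith
  exact le_trans hcb (mul_le_mul_of_nonneg_left h2 (by linarith))

theorem core_N (p r s t σ f g h T : ℤ) (hs : 1 ≤ s) (hps : s < p) (hr : 0 ≤ r) (hrt : r < t)
    (hσ : 1 ≤ σ) (hf : 1 ≤ f) (hg : 1 ≤ g) (hc : 1 ≤ t * g - s * σ)
    (hβ : 1 ≤ f * t - r * σ) (hγ : 1 ≤ g * p + h * s)
    (hT : T = (f * s - p * σ) + (g * r + h * t))
    (hα : T ≤ 5 * (f * s - p * σ)) (hδ : T ≤ 5 * (g * r + h * t)) (hT0 : 0 < T)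
    (hE : 0 < f * g + σ * h)
    (hD : 500 * ((p * t - r * s) * (f * g + σ * h)) ≤ T ^ 2)
    (hw : (p - s) * (f - σ) - (t - r) * (g + h) ≠ 0)
    (hcase : (0 ≤ h ∧ f * s - p * σ < (2 * s - 1) * σ) ∨ h < 0) :
    ∃ A' : Matrix (Fin 2) (Fin 2) ℤ, Sim A' (!![p, r; s, t] * !![-σ, f; g, h]) ∧
      Q (!![-σ, f; g, h] * !![p, r; s, t]) A' := by
  obtain ⟨l, hl2, n3, n4, n1, n2, hfσ, hgh⟩ := exists_level p r s t σ f g h T hs hps hr hrt hσ hf
    hg hβ hγ hT hα hδ hT0 hE hD hcase
  have hxb := x0_bound p r s t σ f g h T (by linarith) hps hr hrt (by linarith)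
    (by linarith) (by linarith) (by linarith) hα hδ hT0 hD
  clear hD hE hcase hβ hγ
  obtain ⟨x, hx⟩ : ∃ x, x = (t - r) * g + (p - s) * σ := ⟨_, rfl⟩
  obtain ⟨b, hb⟩ : ∃ b, b = (p - s) * (f - σ) - (t - r) * (g + h) := ⟨_, rfl⟩
  obtain ⟨y, hy⟩ : ∃ y, y = s * (f - σ) + t * (g + h) := ⟨_, rfl⟩
  have hyx : y - x = T := by rw [hy, hx, hT]; ring
  rw [← hx] at hxb
  rw [← hb] at hw
  have hdg : 0 ≤ (t - r) * g := mul_nonneg (by linarith) (by linarith)
  have haσ : 0 ≤ (p - s) * σ := mul_nonneg (by linarith) (by linarith)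
  have hx0 : 0 ≤ x := by linarith
  have hreg : x ≤ l * |b| ∨ |t * g - s * σ| + 1 ≤ l * (y - x - |b| - 7 * x) := by
    rcases le_or_gt x (l * |b|) with h1 | h1
    · exact Or.inl h1
    right
    rw [hyx, abs_of_nonneg (show 0 ≤ t * g - s * σ by linarith)]
    have hb0 := abs_nonneg b
    have hbx : |b| ≤ x := by
      have : 1 * |b| ≤ l * |b| := mul_le_mul_of_nonneg_right (by linarith) hb0
      linarith
    exact c_bound p r s t σ f g h l T |b| x hs hr hrt hσ hg hl2 hT hα hδ hT0 hps n2 hgh hx hxb hbx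
  have hRS : (!![p - s, r - t; s, t] * !![-σ, f - σ; g, g + h] : Matrix (Fin 2) (Fin 2) ℤ) =
      !![-x, b; t * g - s * σ, y] := by
    rw [hx, hb, hy]
    ext i j; fin_cases i <;> fin_cases j <;>
      simp [Matrix.mul_apply, Fin.sum_univ_two] <;> ring
  obtain ⟨A', h1, h2⟩ := link_N !![p - s, r - t; s, t] !![-σ, f - σ; g, g + h]
    l x b (t * g - s * σ) y (by linarith) hw
    (by
      simp only [Matrix.of_apply, Matrix.cons_val', Matrix.cons_val_zero, Matrix.cons_val_one,
        Matrix.cons_val_fin_one]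
      rw [abs_of_nonneg (show (0 : ℤ) ≤ p - s by linarith)]; exact n3)
    (by
      simp only [Matrix.of_apply, Matrix.cons_val', Matrix.cons_val_zero, Matrix.cons_val_one,
        Matrix.cons_val_fin_one]
      rw [abs_of_nonpos (show r - t ≤ 0 by linarith)]; linarith)
    (by
      refine ⟨?_, ?_, ?_⟩ <;> simp <;> linarith)
    (by
      refine ⟨?_, ?_, ?_⟩
      · simpa using hgh
      · simp
        have : 0 ≤ l * (g + h) := mul_nonneg (by linarith) hgh
        linarith
      · simpa using n2)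
    hRS
    (by
      have : 0 ≤ l * |b| := mul_nonneg (by linarith) (abs_nonneg b)
      linarith) hreg
  refine ⟨A', h1.trans ⟨!![1, 1; 0, 1], by simp [Matrix.det_fin_two], ?_⟩, ?_⟩
  · rw [← hRS]
    ext i j; fin_cases i <;> fin_cases j <;>
      simp [Matrix.mul_apply, Fin.sum_univ_two] <;> ring
  · have e : !![-σ, f - σ; g, g + h] * !![p - s, r - t; s, t] =
        (!![-σ, f; g, h] * !![p, r; s, t] : Matrix (Fin 2) (Fin 2) ℤ) := by
      ext i j; fin_cases i <;> fin_cases j <;>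
        simp [Matrix.mul_apply, Fin.sum_univ_two] <;> ring
    rw [e] at h2
    exact h2

end Pool.Agent.Y321.SE2
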