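import Mathlib

/-!
# The sum of two lattices
-/

set_option autoImplicit false

namespace Pool.Agent.Y321.SE2

open Matrix

/-- Two integer matrices, the first nonsingular, have a common left divisor which is a right
linear combination of them. -/
lemma left_gcd (R A : Matrix (Fin 2) (Fin 2) ℤ) (hR : R.det ≠ 0) :
    ∃ R₁ R₂ S₁ X Y : Matrix (Fin 2) (Fin 2) ℤ, R = R₁ * R₂ ∧ A = R₁ * S₁ ∧
      R₁ = R * X + A * Y := by
  classical
  let N : Submodule ℤ (Fin 2 → ℤ) := LinearMap.range R.mulVecLin ⊔ LinearMap.range A.mulVecLin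
  have hfree : Module.Free ℤ N := inferInstance
  have hfin : Module.Finite ℤ N := inferInstance
  have hrank : Module.finrank ℤ N = 2 := by
    apply le_antisymm
    · have := Submodule.finrank_le N
      simpa using this
    · have h1 : Module.finrank ℤ (LinearMap.range R.mulVecLin) ≤ Module.finrank ℤ N :=
        Submodule.finrank_mono le_sup_left
      have h2 : Module.finrank ℤ (LinearMap.range R.mulVecLin) = 2 := by
        rw [LinearMap.finrank_range_of_inj]
        · simp
        · intro x y hxy
          have h3 : R.mulVec (x - y) = 0 := by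
            have : R.mulVec x = R.mulVec y := hxy
            rw [Matrix.mulVec_sub, this, sub_self]
          have h4 := Matrix.eq_zero_of_mulVec_eq_zero hR h3
          exact sub_eq_zero.mp h4
      rw [h2] at h1
      exact h1
  let bs := Module.finBasisOfFinrankEq ℤ N hrank
  let R₁ : Matrix (Fin 2) (Fin 2) ℤ := Matrix.of fun i j => (bs j : Fin 2 → ℤ) i
  have hcol : ∀ v : N, R₁.mulVec (bs.repr v) = v := by
    intro v
    have h1 := bs.sum_repr v
    have h2 := congrArg (fun w : N => (w : Fin 2 → ℤ)) h1
    simp only [Submodule.coe_sum, Submodule.coe_smul] at h2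
    rw [← h2]
    funext i
    simp only [R₁, Matrix.mulVec, dotProduct, Matrix.of_apply, Finset.sum_apply, Pi.smul_apply,
      smul_eq_mul]
    exact Finset.sum_congr rfl fun j _ => mul_comm _ _
  have hRm : ∀ j, R.col j ∈ N := by
    intro j
    apply Submodule.mem_sup_left
    exact ⟨Pi.single j 1, by simp⟩
  have hAm : ∀ j, A.col j ∈ N := by
    intro j
    apply Submodule.mem_sup_right
    exact ⟨Pi.single j 1, by simp⟩
  have hB : ∀ j, ∃ x y : Fin 2 → ℤ, R.mulVec x + A.mulVec y = (bs j : Fin 2 → ℤ) := by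
    intro j
    have h1 := (bs j).2
    obtain ⟨u, ⟨x, hx⟩, v, ⟨y, hy⟩, huv⟩ := Submodule.mem_sup.mp h1
    refine ⟨x, y, ?_⟩
    rw [← huv, ← hx, ← hy]
    rfl
  choose X Y hXY using hB
  refine ⟨R₁, Matrix.of fun i j => bs.repr ⟨R.col j, hRm j⟩ i,
    Matrix.of fun i j => bs.repr ⟨A.col j, hAm j⟩ i, Matrix.of fun i j => X j i,
    Matrix.of fun i j => Y j i, ?_, ?_, ?_⟩
  · ext i j
    have h1 := congrFun (hcol ⟨R.col j, hRm j⟩) i
    rw [Matrix.mul_apply]
    simp only [Matrix.mulVec, dotProduct] at h1
    simp only [Matrix.of_apply]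
    rw [h1]
    rfl
  · ext i j
    have h1 := congrFun (hcol ⟨A.col j, hAm j⟩) i
    rw [Matrix.mul_apply]
    simp only [Matrix.mulVec, dotProduct] at h1
    simp only [Matrix.of_apply]
    rw [h1]
    rfl
  · ext i j
    have h1 := congrFun (hXY j) i
    rw [Matrix.add_apply, Matrix.mul_apply, Matrix.mul_apply]
    simp only [Matrix.mulVec, dotProduct, Pi.add_apply] at h1
    simp only [Matrix.of_apply, R₁]
    rw [← h1]

end Pool.Agent.Y321.SE2
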