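import Pool.Agent.TH441.SSE2.Transfer

/-!
# Presentations on wide cones: extension of the fan lemma
-/

set_option autoImplicit false

namespace Pool.Agent.Y321.SE2

open Matrix Pool.Agent.TH441.SSE2

lemma ceil_spec (A m : ℤ) (hm : 1 ≤ m) :
    A ≤ m * ((A + m - 1) / m) ∧ m * ((A + m - 1) / m) ≤ A + m - 1 := by
  have h3 := Int.emod_add_mul_ediv (A + m - 1) m
  have h4 := Int.emod_nonneg (A + m - 1) (show m ≠ 0 by linarith)
  have h5 := Int.emod_lt_of_pos (A + m - 1) (show 0 < m by linarith)
  constructor <;> linarith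

/-- Extended fan lemma: level `l` is reached as soon as `|b| + 1 ≤ l (T - c - 4x)`. -/
lemma fan_level (x b c y j l : ℤ) (hx : 1 ≤ x) (hc : 1 ≤ c) (hj : x ≤ j * c)
    (hj' : j * c < x + c) (hl : 1 ≤ l) (hlj : l ≤ j)
    (h1 : |b| + 1 ≤ l * (y - x - c - 4 * x)) :
    Q (K1 x b c y j) (W x b c y l ((x + 1) / 2) (((x + 1) / 2 + l - 1) / l)) := by
  obtain ⟨A, hAdef⟩ : ∃ A, A = (x + 1) / 2 := ⟨_, rfl⟩
  rw [← hAdef]
  have hA1 : x ≤ 2 * A := by omega
  have hA2 : 2 * A ≤ x + 1 := by omega
  have hb := abs_nonneg b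
  have hbl := neg_abs_le b
  have hbu := le_abs_self b
  have hZ : 1 ≤ y - x - c - 4 * x := by
    by_contra hneg
    push Not at hneg
    nlinarith
  have hj1 : 1 ≤ j := le_trans hl hlj
  have hjx : j ≤ x := by
    have : (j - 1) * c ≤ x - 1 := by linarith
    nlinarith
  have hT : ∀ m : ℤ, 1 ≤ m → A ≤ m * ((A + m - 1) / m) ∧ m * ((A + m - 1) / m) ≤ A + m - 1 :=
    fun m hm => ceil_spec A m hm
  have hbm : ∀ m : ℤ, l ≤ m → |b| + 1 ≤ m * (y - x - c - 4 * x) := by
    intro m hm
    have : l * (y - x - c - 4 * x) ≤ m * (y - x - c - 4 * x) :=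
      mul_le_mul_of_nonneg_right hm (by linarith)
    linarith
  have hx2 : ∀ k : ℤ, 0 ≤ k → b + k * x - 2 * k * A ≤ |b| + k ∧
      -(|b| + k) ≤ b + k * x - 2 * k * A := by
    intro k hk
    have e1 : 0 ≤ k * (2 * A - x) := mul_nonneg hk (by linarith)
    have e2 : 0 ≤ k * (x + 1 - 2 * A) := mul_nonneg hk (by linarith)
    constructor <;> linarith
  -- start
  have s1 : Q (K1 x b c y j) (W x b c y j 0 0) := by
    refine move_start x b c y j ⟨by linarith, by linarith, by linarith⟩ ?_
    have hbj := hbm j hlj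
    have e13 : 0 ≤ j * x := mul_nonneg (by linarith) (by linarith)
    have e14 : 0 ≤ j * (x + c - 1 - j * c) := mul_nonneg (by linarith) (by linarith)
    have e15 : 0 ≤ j * x := mul_nonneg (by linarith) (by linarith)
    exact InH.of_abs (B := |b|) (l := j * x) hj1 (by linarith) (by linarith) hb
      (by linarith) (by nlinarith)
  have s2 : Q (W x b c y j 0 0) (W x b c y j A ((A + j - 1) / j)) := by
    obtain ⟨h5, h6⟩ := hT j hj1
    obtain ⟨t, ht⟩ : ∃ t, t = (A + j - 1) / j := ⟨_, rfl⟩
    rw [← ht] at h5 h6 ⊢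
    have h := move_add x b c y j 0 0 A t (by linarith)
      ⟨le_refl _, by simp, by simp⟩ ?_ ?_ ?_
    · simpa using h.symm
    · exact ⟨nonneg_of_mul hj1 (by linarith) h5, by linarith, h5⟩
    · have hbj := hbm j hlj
      have hh := hx2 j (by linarith)
      rw [zero_add, zero_add]
      refine InH.of_abs hj1 hh.1 hh.2 hb (by linarith) ?_
      have e1 : 2 * j * t ≤ 3 * x := by nlinarith
      have e2 : 0 ≤ j * (3 * x - 2 * j * t) := mul_nonneg (by linarith) (by linarith)
      have e3 : 0 ≤ j * (x + c - 1 - j * c) := mul_nonneg (by linarith) (by linarith)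
      have e4 : 0 ≤ j * x := mul_nonneg (by linarith) (by linarith)
      nlinarith
    · exact ⟨by linarith, by linarith, by linarith⟩
  -- descent
  have key : ∀ n : ℕ, ∀ m : ℤ, l ≤ m → m + n = j →
      Q (K1 x b c y j) (W x b c y m A ((A + m - 1) / m)) := by
    intro n
    induction n with
    | zero =>
      intro m hm hmj
      have : m = j := by simpa using hmj
      rw [this]
      exact s1.trans s2
    | succ n ih =>
      intro m hlm hmj
      push_cast at hmj
      have hm : 1 ≤ m := le_trans hl hlm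
      have hlj' : m + 1 ≤ j := by omega
      have h3 := ih (m + 1) (by linarith) (by linarith)
      obtain ⟨h5, h6⟩ := hT m hm
      obtain ⟨h7, h8⟩ := hT (m + 1) (by linarith)
      obtain ⟨t, ht⟩ : ∃ t, t = (A + m - 1) / m := ⟨_, rfl⟩
      obtain ⟨u, hu⟩ : ∃ u, u = (A + (m + 1) - 1) / (m + 1) := ⟨_, rfl⟩
      rw [← ht] at h5 h6
      rw [← hu] at h7 h8 h3
      rw [← ht]
      have hApos : 1 ≤ A := by linarith
      have ht0 : 1 ≤ t := pos_of_mul hm hApos h5
      have hu0 : 1 ≤ u := pos_of_mul (by linarith) hApos h7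
      have hut : u ≤ t := le_of_ceil hm ht0 h5 (by linarith)
      have htA : t ≤ A := by
        have : m * (t - 1) ≤ A - 1 := by linarith
        nlinarith
      have hmx : m ≤ x - 1 := by linarith
      have hst : |b| + (m + 1) ≤ m * (y - (m + 1) * c - 2 * (m + 1) * t) := by
        have hbm' := hbm m hlm
        have e1 : (m + 1) * c ≤ j * c := mul_le_mul_of_nonneg_right hlj' (by linarith)
        have e2 : 2 * (m + 1) * t ≤ 4 * x - 2 := by nlinarith
        have e3 : y - x - c - 4 * x + x + 3 ≤ y - (m + 1) * c - 2 * (m + 1) * t + x := by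
          linarith
        have e4 : m * (y - x - c - 4 * x + 3) ≤ m * (y - (m + 1) * c - 2 * (m + 1) * t) :=
          mul_le_mul_of_nonneg_left (by linarith) (by linarith)
        nlinarith
      have hh := hx2 (m + 1) (by linarith)
      have hmid : InH m (b + (m + 1) * x - 2 * (m + 1) * A)
          (y - (m + 1) * c - 2 * (m + 1) * t) :=
        InH.of_abs hm hh.1 hh.2 hb (by linarith) hst
      have h9 : Q (W x b c y (m + 1) A t) (W x b c y (m + 1) A u) := by
        have hz : 0 ≤ (m + 1) * (t - u) := mul_nonneg (by linarith) (by linarith)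
        have h := move_add x b c y (m + 1) A u 0 (t - u) (by linarith)
          ⟨by linarith, by linarith, h7⟩ ⟨by linarith, by linarith, hz⟩ ?_ ?_
        · simpa using h
        · rw [add_zero, add_sub_cancel]
          exact hmid.mono (by linarith)
        · exact inH_shift (by linarith) hx hc (by linarith) hA1 hA2 h7
      have h10 : Q (W x b c y (m + 1) A t) (W x b c y m A t) := by
        exact move_shrink x b c y (m + 1) m A t (by linarith) (by linarith)
          ⟨by linarith, by linarith, h5⟩ hmid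
          (inH_shift hm hx hc (by linarith) hA1 hA2 h5)
      exact (h3.trans h9.symm).trans h10
  have hfin := key (j - l).toNat l le_rfl (by
    rw [Int.toNat_of_nonneg (by linarith)]; ring)
  exact hfin

/-- Regime (a): `|x| ≤ l c`. -/
lemma hl_a (x b c y l s t : ℤ) (hl : 0 ≤ l) (hx1 : x ≤ l * c) (hx2 : -(l * c) ≤ x) (hc : 0 ≤ c)
    (h1 : InH l s t) (h3 : InH l (b + l * x - 2 * l * s) (y - l * c - 2 * l * t)) :
    Q (W x b c y l s t) (K1 x b c y l) := by
  have e1 : Q (W x b c y l s t) (W x b c y l 0 0) := by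
    have h := move_add x b c y l 0 0 s t hl ⟨le_refl _, by simp, by simp⟩ h1
      (by rw [zero_add, zero_add]; exact h3) ⟨by linarith, by linarith, by linarith⟩
    rw [zero_add, zero_add] at h
    exact h
  obtain ⟨h11, h12, h13⟩ := h1
  obtain ⟨h31, h32, h33⟩ := h3
  have e2 := move_start x b c y l ⟨hc, by linarith, by linarith⟩ (by
    refine ⟨?_, ?_, ?_⟩
    · have : 0 ≤ l * t := mul_nonneg hl h11
      linarith
    · nlinarith
    · nlinarith)
  exact e1.trans e2.symm

end Pool.Agent.Y321.SE2
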