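import Pool.Agent.Y321.SE2.CoreH

/-!
# The choice of the level in the narrow case
-/

set_option autoImplicit false

namespace Pool.Agent.Y321.SE2

lemma prod_bound {α δ T D : ℤ} (hT : T = α + δ) (hα : T ≤ 5 * α) (hδ : T ≤ 5 * δ)
    (hD : 500 * D ≤ T ^ 2) : 80 * D ≤ α * δ := by
  have h1 : 0 ≤ (5 * α - T) * (5 * δ - T) := mul_nonneg (by linarith) (by linarith)
  have h2 : (5 * α - T) * (5 * δ - T) = 25 * (α * δ) - 4 * T ^ 2 := by rw [hT]; ring
  linarith

/-- `2 a ≤ s` in the first case. -/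
lemma base_a1 {a s σ α δ D : ℤ} (hσ : 1 ≤ σ) (hδ0 : 0 < δ) (hD0 : 0 < D)
    (hαδ : 79 * D ≤ α * δ) (b1 : a * σ * δ ≤ D) (hcase : α < (2 * s - 1) * σ) : 2 * a ≤ s := by
  by_contra hneg
  push Not at hneg
  have h1 : (2 * s - 1) * σ ≤ (4 * a) * σ := mul_le_mul_of_nonneg_right (by linarith) (by linarith)
  have h2 : α * δ ≤ ((4 * a) * σ) * δ := mul_le_mul_of_nonneg_right (by linarith) hδ0.le
  have h3 : ((4 * a) * σ) * δ = 4 * (a * σ * δ) := by ring
  linarith

/-- `d ≤ r` in the first case. -/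
lemma base_a2 {d s t r σ α δ D E : ℤ} (hs : 1 ≤ s) (hσ : 1 ≤ σ) (hδ0 : 0 < δ) (hD0 : 0 < D)
    (hE : 0 < E) (htd : t = r + d)
    (hαδ : 79 * D ≤ α * δ) (b4 : d * s * E ≤ D) (hte : σ * δ ≤ t * E)
    (hcase : α < (2 * s - 1) * σ) : d ≤ r := by
  by_contra hneg
  push Not at hneg
  have h1 : t ≤ 2 * d := by linarith
  have hsE : 0 ≤ s * E := mul_nonneg (by linarith) hE.le
  have h3 : s * (σ * δ) ≤ s * (t * E) := mul_le_mul_of_nonneg_left hte (by linarith)
  have h4 : (s * E) * t ≤ (s * E) * (2 * d) := mul_le_mul_of_nonneg_left h1 hsE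
  have h5 : α * δ ≤ ((2 * s - 1) * σ) * δ := mul_le_mul_of_nonneg_right hcase.le hδ0.le
  have h6 : 0 ≤ σ * δ := mul_nonneg (by linarith) hδ0.le
  have e1 : ((2 * s - 1) * σ) * δ = 2 * (s * (σ * δ)) - σ * δ := by ring
  have e2 : s * (t * E) = (s * E) * t := by ring
  have e3 : (s * E) * (2 * d) = 2 * (d * s * E) := by ring
  linarith

/-- Both base inequalities in the second case. -/
lemma base_c {a d p r s t f g h σ α δ E β γ : ℤ} (hs : 1 ≤ s) (hr1 : 1 ≤ r) (ha : 1 ≤ a)
    (hd : 1 ≤ d) (hf : 1 ≤ f) (hg : 1 ≤ g) (hσ : 1 ≤ σ) (hα0 : 0 < α) (hδ0 : 0 < δ)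
    (hE : 0 < E) (hEd : E = f * g + σ * h) (hh : h < 0)
    (hrt : r < t) (hq : p * t - r * s = a * t + d * s)
    (hαδ : 79 * ((p * t - r * s) * E) ≤ α * δ)
    (kr : r * E = f * δ - h * β) (ks : s * E = g * α + σ * γ) (hβ : 1 ≤ β) (hγ : 1 ≤ γ) :
    2 * a ≤ s ∧ d ≤ r := by
  have h1 : f * δ ≤ r * E := by
    have : 0 ≤ (-h) * β := mul_nonneg (by linarith) (by linarith)
    linarith
  have h2 : g * α ≤ s * E := by
    have : 0 ≤ σ * γ := mul_nonneg (by linarith) (by linarith)
    linarith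
  have h3 : (f * δ) * (g * α) ≤ (r * E) * (s * E) :=
    mul_le_mul h1 h2 (mul_nonneg (by linarith) hα0.le) (mul_nonneg (by linarith) hE.le)
  have h4 : E ≤ f * g := by
    have : 0 ≤ σ * (-h) := mul_nonneg (by linarith) (by linarith)
    linarith
  have h5 : E * (α * δ) ≤ E * (r * s * E) := by
    have h6 := mul_le_mul_of_nonneg_right h4 (mul_nonneg hα0.le hδ0.le)
    have e1 : f * g * (α * δ) = (f * δ) * (g * α) := by ring
    have e2 : (r * E) * (s * E) = E * (r * s * E) := by ring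
    linarith
  have h6 : α * δ ≤ r * s * E := le_of_mul_le hE h5
  have h7 : E * (79 * (p * t - r * s)) ≤ E * (r * s) := by
    have e1 : E * (79 * (p * t - r * s)) = 79 * ((p * t - r * s) * E) := by ring
    have e2 : E * (r * s) = r * s * E := by ring
    linarith
  have h8 : 79 * (p * t - r * s) ≤ r * s := le_of_mul_le hE h7
  rw [hq] at h8
  have h10 : 0 ≤ a * t := mul_nonneg (by linarith) (by linarith)
  have h11 : 0 ≤ d * s := mul_nonneg (by linarith) (by linarith)
  have h12 : a * r ≤ a * t := mul_le_mul_of_nonneg_left hrt.le (by linarith)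
  have h13 : 0 ≤ a * r := mul_nonneg (by linarith) (by linarith)
  constructor
  · have : r * (2 * a) ≤ r * s := by
      have e : r * (2 * a) = 2 * (a * r) := by ring
      linarith
    exact le_of_mul_le (by linarith) this
  · have : s * d ≤ s * r := by
      have e : s * d = d * s := by ring
      have e' : s * r = r * s := by ring
      linarith
    exact le_of_mul_le (by linarith) this

/-- The level itself. -/
lemma level {a d r s : ℤ} (ha : 1 ≤ a) (hd : 1 ≤ d) (h1 : 2 * a ≤ s) (h2 : d ≤ r) :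
    ∃ l : ℤ, 2 ≤ l ∧ l * a ≤ s ∧ (l - 1) * d ≤ r ∧ (s < (l + 1) * a ∨ r < l * d) := by
  have l1a := Int.ediv_mul_le s (show a ≠ 0 by linarith)
  have l1b := Int.lt_ediv_add_one_mul_self s (show 0 < a by linarith)
  have l2a := Int.ediv_mul_le r (show d ≠ 0 by linarith)
  have l2b := Int.lt_ediv_add_one_mul_self r (show 0 < d by linarith)
  have hl1' : 2 ≤ s / a := (Int.le_ediv_iff_mul_le (by linarith)).mpr h1
  have hl2' : 1 ≤ r / d := (Int.le_ediv_iff_mul_le (by linarith)).mpr (by linarith)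
  refine ⟨min (s / a) (r / d + 1), le_min hl1' (by linarith), ?_, ?_, ?_⟩
  · exact le_trans (mul_le_mul_of_nonneg_right (min_le_left _ _) (by linarith)) l1a
  · have : min (s / a) (r / d + 1) - 1 ≤ r / d := by
      have := min_le_right (s / a) (r / d + 1)
      linarith
    exact le_trans (mul_le_mul_of_nonneg_right this (by linarith)) l2a
  · rcases min_choice (s / a) (r / d + 1) with h3 | h3
    · left; rw [h3]; exact l1b
    · right; rw [h3]; exact l2b

lemma level_n1 {a d s t r σ f l α δ D E : ℤ} (hs : 1 ≤ s) (hσ : 1 ≤ σ) (ha : 1 ≤ a)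
    (hl : 2 ≤ l) (hα0 : 0 < α) (hδ0 : 0 < δ) (hD0 : 0 < D) (hE : 0 < E) (htd : t = r + d)
    (hd : 1 ≤ d)
    (hαδ : 79 * D ≤ α * δ) (b1 : a * σ * δ ≤ D) (b4 : d * s * E ≤ D) (hte : σ * δ ≤ t * E)
    (hfs : s * (f - σ) = α + a * σ) (hor : s < (l + 1) * a ∨ r < l * d) :
    σ ≤ l * (f - σ) ∧ 0 ≤ f - σ := by
  have haσ : 0 ≤ a * σ := mul_nonneg (by linarith) (by linarith)
  have hfσ : 0 < f - σ := by
    by_contra hneg
    push Not at hneg
    have : s * (f - σ) ≤ 0 := mul_nonpos_of_nonneg_of_nonpos (by linarith) hneg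
    linarith
  have hlD : 0 ≤ l * D := mul_nonneg (by linarith) hD0.le
  refine ⟨?_, hfσ.le⟩
  have hgoal : s * σ ≤ s * (l * (f - σ)) := by
    have e : s * (l * (f - σ)) = l * (s * (f - σ)) := by ring
    rw [e, hfs]
    rcases hor with h1 | h1
    · have haσα : a * σ ≤ α := by
        have : δ * (a * σ) ≤ δ * α := by
          have e1 : δ * (a * σ) = a * σ * δ := by ring
          have e2 : δ * α = α * δ := by ring
          linarith
        exact le_of_mul_le hδ0 this
      have h2 : s * σ ≤ ((l + 1) * a) * σ := mul_le_mul_of_nonneg_right h1.le (by linarith)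
      have h3 : 0 ≤ (l - 1) * α := mul_nonneg (by linarith) hα0.le
      have e1 : ((l + 1) * a) * σ = l * (a * σ) + a * σ := by ring
      have e2 : l * (α + a * σ) = l * (a * σ) + α + (l - 1) * α := by ring
      linarith
    · have h2 : t ≤ (l + 1) * d := by linarith
      have h4 : s * (σ * δ) ≤ s * (t * E) := mul_le_mul_of_nonneg_left hte (by linarith)
      have h5 : (s * E) * t ≤ (s * E) * ((l + 1) * d) :=
        mul_le_mul_of_nonneg_left h2 (mul_nonneg (by linarith) hE.le)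
      have h6 : (l + 1) * (d * s * E) ≤ (l + 1) * D :=
        mul_le_mul_of_nonneg_left b4 (by linarith)
      have h7 : (l + 1) * D ≤ (2 * l) * D := mul_le_mul_of_nonneg_right (by linarith) hD0.le
      have h8 : l * (79 * D) ≤ l * (α * δ) := mul_le_mul_of_nonneg_left hαδ (by linarith)
      have h10 : δ * (s * σ) ≤ δ * (l * α) := by
        have e1 : δ * (s * σ) = s * (σ * δ) := by ring
        have e2 : δ * (l * α) = l * (α * δ) := by ring
        have e3 : s * (t * E) = (s * E) * t := by ring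
        have e4 : (s * E) * ((l + 1) * d) = (l + 1) * (d * s * E) := by ring
        have e5 : l * (79 * D) = 79 * (l * D) := by ring
        have e6 : (2 * l) * D = 2 * (l * D) := by ring
        linarith
      have h11 : s * σ ≤ l * α := le_of_mul_le hδ0 h10
      have h12 : 0 ≤ l * (a * σ) := mul_nonneg (by linarith) haσ
      have e7 : l * (α + a * σ) = l * α + l * (a * σ) := by ring
      linarith
  exact le_of_mul_le (by linarith) hgoal

lemma level_main {a d p r s t f g σ σ₂ l α δ β γ D : ℤ} (ha : 1 ≤ a) (hd : 1 ≤ d)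
    (hr1 : 1 ≤ r) (ht : 1 ≤ t)
    (hs : 1 ≤ s) (hg : 1 ≤ g) (hσ : 1 ≤ σ) (hrt : r < t) (hl : 2 ≤ l) (hα0 : 0 < α) (hδ0 : 0 < δ)
    (hD0 : 0 < D) (hσ₂0 : 1 ≤ σ₂) (hgσ : σ₂ < g) (hαδ : 79 * D ≤ α * δ)
    (hq : 1 ≤ p * t - r * s) (ksβ : s * β = t * α + (p * t - r * s) * σ)
    (b2 : d * g * α ≤ D) (b5 : a * (g * β) ≤ D) (hor : s < (l + 1) * a ∨ r < l * d) :
    r * σ₂ ≤ (l - 1) * (δ + d * σ₂) := by
  have hdσ0 : 0 ≤ d * σ₂ := mul_nonneg (by linarith) (by linarith)
  rcases hor with h1 | h1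
  · have h2 : a * (g * (t * α)) ≤ a * (g * (s * β)) := by
      have : t * α ≤ s * β := by
        rw [ksβ]
        have : 0 ≤ (p * t - r * s) * σ := mul_nonneg (by linarith) (by linarith)
        linarith
      exact mul_le_mul_of_nonneg_left (mul_le_mul_of_nonneg_left this (by linarith))
        (by linarith)
    have h4 : s * (a * (g * β)) ≤ s * D := mul_le_mul_of_nonneg_left b5 (by linarith)
    have h5 : (r * σ₂) * (a * α) ≤ (t * g) * (a * α) :=
      mul_le_mul_of_nonneg_right (mul_le_mul hrt.le hgσ.le (by linarith) (by linarith))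
        (mul_nonneg (by linarith) hα0.le)
    have h6 : s * D ≤ ((l + 1) * a) * D := mul_le_mul_of_nonneg_right h1.le hD0.le
    have h7 : a * (r * σ₂ * α) ≤ a * ((l + 1) * D) := by
      have e1 : a * (r * σ₂ * α) = (r * σ₂) * (a * α) := by ring
      have e2 : (t * g) * (a * α) = a * (g * (t * α)) := by ring
      have e3 : a * (g * (s * β)) = s * (a * (g * β)) := by ring
      have e4 : ((l + 1) * a) * D = a * ((l + 1) * D) := by ring
      linarith
    have h8 : r * σ₂ * α ≤ (l + 1) * D := le_of_mul_le (by linarith) h7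
    have h9 : (l + 1) * D ≤ (3 * (l - 1)) * D :=
      mul_le_mul_of_nonneg_right (by linarith) hD0.le
    have h10 : (l - 1) * (79 * D) ≤ (l - 1) * (α * δ) :=
      mul_le_mul_of_nonneg_left hαδ (by linarith)
    have h11 : 0 ≤ (l - 1) * D := mul_nonneg (by linarith) hD0.le
    have h12 : α * (r * σ₂) ≤ α * ((l - 1) * δ) := by
      have e1 : α * (r * σ₂) = r * σ₂ * α := by ring
      have e2 : α * ((l - 1) * δ) = (l - 1) * (α * δ) := by ring
      have e3 : (3 * (l - 1)) * D = 3 * ((l - 1) * D) := by ring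
      have e4 : (l - 1) * (79 * D) = 79 * ((l - 1) * D) := by ring
      linarith
    have h13 := le_of_mul_le hα0 h12
    have h14 : 0 ≤ (l - 1) * (d * σ₂) := mul_nonneg (by linarith) hdσ0
    have e5 : (l - 1) * (δ + d * σ₂) = (l - 1) * δ + (l - 1) * (d * σ₂) := by ring
    linarith
  · have hdσ : d * σ₂ * α ≤ D := by
      have h2 : d * σ₂ ≤ d * g := mul_le_mul_of_nonneg_left hgσ.le (by linarith)
      have h3 : (d * σ₂) * α ≤ (d * g) * α := mul_le_mul_of_nonneg_right h2 hα0.le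
      linarith
    have hdσδ : d * σ₂ ≤ δ := by
      have : α * (d * σ₂) ≤ α * δ := by
        have e : α * (d * σ₂) = d * σ₂ * α := by ring
        linarith
      exact le_of_mul_le hα0 this
    have h2 : r * σ₂ ≤ (l * d) * σ₂ := mul_le_mul_of_nonneg_right h1.le (by linarith)
    have h3 : 0 ≤ (l - 2) * δ := mul_nonneg (by linarith) hδ0.le
    have e1 : (l * d) * σ₂ = (l - 1) * (d * σ₂) + d * σ₂ := by ring
    have e2 : (l - 1) * (δ + d * σ₂) = (l - 2) * δ + δ + (l - 1) * (d * σ₂) := by ring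
    linarith

end Pool.Agent.Y321.SE2
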