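import Pool.Agent.Y321.SE2.Conn

/-!
# The link lemmas through wide and narrow cones
-/

set_option autoImplicit false

namespace Pool.Agent.Y321.SE2

open Matrix Pool.Agent.TH441.SSE2

/-- Similarity over `ℤ` of `2 × 2` matrices. -/
def Sim (X Y : Matrix (Fin 2) (Fin 2) ℤ) : Prop :=
  ∃ U : Matrix (Fin 2) (Fin 2) ℤ, IsUnit U.det ∧ U * X = Y * U

lemma Sim.refl (X : Matrix (Fin 2) (Fin 2) ℤ) : Sim X X := ⟨1, by simp, by simp⟩

lemma Sim.trans {X Y Z : Matrix (Fin 2) (Fin 2) ℤ} (h : Sim X Y) (h' : Sim Y Z) : Sim X Z := by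
  obtain ⟨U, hU, h1⟩ := h
  obtain ⟨V, hV, h2⟩ := h'
  refine ⟨V * U, by rw [Matrix.det_mul]; exact hV.mul hU, ?_⟩
  rw [Matrix.mul_assoc, h1, ← Matrix.mul_assoc, h2, Matrix.mul_assoc]

lemma Sim.symm {X Y : Matrix (Fin 2) (Fin 2) ℤ} (h : Sim X Y) : Sim Y X := by
  obtain ⟨U, hU, h1⟩ := h
  refine ⟨U⁻¹, ?_, ?_⟩
  · exact Matrix.isUnit_nonsing_inv_det U hU
  · have e1 : U⁻¹ * U = 1 := Matrix.nonsing_inv_mul U hU
    have e2 : U * U⁻¹ = 1 := Matrix.mul_nonsing_inv U hU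
    calc U⁻¹ * Y = U⁻¹ * Y * (U * U⁻¹) := by rw [e2, Matrix.mul_one]
      _ = U⁻¹ * (Y * U) * U⁻¹ := by simp only [Matrix.mul_assoc]
      _ = U⁻¹ * (U * X) * U⁻¹ := by rw [h1]
      _ = (U⁻¹ * U) * X * U⁻¹ := by simp only [Matrix.mul_assoc]
      _ = X * U⁻¹ := by rw [e1, Matrix.one_mul]

lemma Sim.transpose {X Y : Matrix (Fin 2) (Fin 2) ℤ} (h : Sim X Y) : Sim Xᵀ Yᵀ := by
  obtain ⟨U, hU, h1⟩ := h.symm
  refine ⟨Uᵀ, by rw [Matrix.det_transpose]; exact hU, ?_⟩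
  rw [← Matrix.transpose_mul, ← Matrix.transpose_mul, h1]

lemma Q_NN {n m : ℕ} {X : Matrix (Fin n) (Fin n) ℤ} {Y : Matrix (Fin m) (Fin m) ℤ}
    (h : Q X Y) (hX : NN X) : NN Y := by
  have key : ∀ {X Y : SqZ}, Relation.ReflTransGen EZ X Y → NN X.2 → NN Y.2 := by
    intro X Y h hX
    induction h with
    | refl => exact hX
    | tail _ h2 _ =>
      obtain ⟨R, S, hR, hS, _, h4⟩ := h2
      rw [h4]
      intro i j
      rw [Matrix.mul_apply]
      exact Finset.sum_nonneg fun k _ => mul_nonneg (hS i k) (hR k j)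
  exact key h hX

lemma K1_sim (x b c y j : ℤ) : Sim (K1 x b c y j) !![-x, b; c, y] := by
  refine ⟨!![1, -j; 0, 1], by simp [Matrix.det_fin_two], ?_⟩
  ext i k; fin_cases i <;> fin_cases k <;>
    simp [K1, Matrix.mul_apply, Fin.sum_univ_succ] <;> ring

/-- Passing from a factorization `R S` to a presentation on the wide cone `H_l`. -/
lemma link_W (R S : Matrix (Fin 2) (Fin 2) ℤ) (l x b c y : ℤ) (hl : 1 ≤ l)
    (hR1 : InH l (R 0 0) (R 1 0)) (hR2 : InH l (R 0 1) (R 1 1))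
    (hS1 : l * |S 0 0| ≤ S 0 1) (hS2 : l * |S 1 0| ≤ S 1 1)
    (hP : R * S = !![-x, b; c, y]) :
    ∃ s t : ℤ, InH l s t ∧ InH l (s - x) (t + c) ∧
      InH l (b + l * x - 2 * l * s) (y - l * c - 2 * l * t) ∧
      Q (S * R) (W x b c y l s t) := by
  obtain ⟨a1, ha1⟩ : ∃ a, a = max (S 0 0) 0 := ⟨_, rfl⟩
  obtain ⟨a2, ha2⟩ : ∃ a, a = max (-S 0 0) 0 := ⟨_, rfl⟩
  obtain ⟨b1, hb1⟩ : ∃ a, a = max (S 1 0) 0 := ⟨_, rfl⟩
  obtain ⟨b2, hb2⟩ : ∃ a, a = max (-S 1 0) 0 := ⟨_, rfl⟩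
  have pa1 : 0 ≤ a1 := ha1 ▸ le_max_right _ _
  have pa2 : 0 ≤ a2 := ha2 ▸ le_max_right _ _
  have pb1 : 0 ≤ b1 := hb1 ▸ le_max_right _ _
  have pb2 : 0 ≤ b2 := hb2 ▸ le_max_right _ _
  have da : S 0 0 = a1 - a2 := by
    rcases le_total 0 (S 0 0) with h | h
    · rw [ha1, ha2, max_eq_left h, max_eq_right (by linarith)]; ring
    · rw [ha1, ha2, max_eq_right h, max_eq_left (by linarith)]; ring
  have db : S 1 0 = b1 - b2 := by
    rcases le_total 0 (S 1 0) with h | h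
    · rw [hb1, hb2, max_eq_left h, max_eq_right (by linarith)]; ring
    · rw [hb1, hb2, max_eq_right h, max_eq_left (by linarith)]; ring
  have sa : |S 0 0| = a1 + a2 := by
    rcases le_total 0 (S 0 0) with h | h
    · rw [ha1, ha2, max_eq_left h, max_eq_right (by linarith), abs_of_nonneg h]; ring
    · rw [ha1, ha2, max_eq_right h, max_eq_left (by linarith), abs_of_nonpos h]; ring
  have sb : |S 1 0| = b1 + b2 := by
    rcases le_total 0 (S 1 0) with h | h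
    · rw [hb1, hb2, max_eq_left h, max_eq_right (by linarith), abs_of_nonneg h]; ring
    · rw [hb1, hb2, max_eq_right h, max_eq_left (by linarith), abs_of_nonpos h]; ring
  rw [sa] at hS1
  rw [sb] at hS2
  have p00 := congrFun (congrFun hP 0) 0
  have p01 := congrFun (congrFun hP 0) 1
  have p10 := congrFun (congrFun hP 1) 0
  have p11 := congrFun (congrFun hP 1) 1
  simp [Matrix.mul_apply, Fin.sum_univ_two] at p00 p01 p10 p11
  rw [da, db] at p00 p10
  obtain ⟨h11, h12, h13⟩ := hR1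
  obtain ⟨h21, h22, h23⟩ := hR2
  have comb : ∀ u v : ℤ, 0 ≤ u → 0 ≤ v →
      InH l (R 0 0 * u + R 0 1 * v) (R 1 0 * u + R 1 1 * v) := by
    intro u v hu hv
    refine ⟨add_nonneg (mul_nonneg h11 hu) (mul_nonneg h21 hv), ?_, ?_⟩
    · have e1 := mul_le_mul_of_nonneg_right h12 hu
      have e2 := mul_le_mul_of_nonneg_right h22 hv
      linarith
    · have e1 := mul_le_mul_of_nonneg_right h13 hu
      have e2 := mul_le_mul_of_nonneg_right h23 hv
      linarith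
  refine ⟨R 0 0 * a2 + R 0 1 * b2, R 1 0 * a2 + R 1 1 * b2, comb _ _ pa2 pb2, ?_, ?_, ?_⟩
  · have := comb a1 b1 pa1 pb1
    convert this using 1
    · linarith
    · linarith
  · have := comb (S 0 1 - l * (a1 + a2)) (S 1 1 - l * (b1 + b2)) (by linarith) (by linarith)
    convert this using 1
    · rw [← p01]; linear_combination l * p00
    · rw [← p11]; linear_combination l * p10
  · refine Q.move S R (Ur l) (Vc x b c y l _ _)
      (!![a2, S 0 1 - l * (a1 + a2), a1; b2, S 1 1 - l * (b1 + b2), b1]) ?_ ?_ ?_ ?_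
    · intro i j; fin_cases i <;> fin_cases j <;> simp <;> linarith
    · intro i j
      fin_cases i <;> fin_cases j <;>
        simp [Ur, Matrix.mul_apply, Fin.sum_univ_succ] <;> linarith
    · ext i j; fin_cases i <;> fin_cases j <;>
        simp [Ur, Matrix.mul_apply, Fin.sum_univ_succ]
      · linarith
      · ring
      · linarith
      · ring
    · ext i j; fin_cases i <;> fin_cases j <;>
        simp [Vc, Matrix.mul_apply, Fin.sum_univ_succ]
      · rw [← p01]; linear_combination l * p00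
      · linarith
      · rw [← p11]; linear_combination l * p10
      · linarith

/-- The wide link. -/
lemma link_H (R S : Matrix (Fin 2) (Fin 2) ℤ) (l x b c y : ℤ) (hl : 1 ≤ l) (hc : 1 ≤ c)
    (hR1 : InH l (R 0 0) (R 1 0)) (hR2 : InH l (R 0 1) (R 1 1))
    (hS1 : l * |S 0 0| ≤ S 0 1) (hS2 : l * |S 1 0| ≤ S 1 1)
    (hP : R * S = !![-x, b; c, y]) (hx : -(l * c) ≤ x)
    (hreg : x ≤ l * c ∨ |b| + 1 ≤ l * (y - x - c - 7 * x)) :
    ∃ A' : Matrix (Fin 2) (Fin 2) ℤ, Sim A' !![-x, b; c, y] ∧ Q (S * R) A' := by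
  obtain ⟨s, t, h1, h2, h3, h4⟩ := link_W R S l x b c y hl hR1 hR2 hS1 hS2 hP
  rcases le_or_gt x (l * c) with h | h
  · exact ⟨K1 x b c y l, K1_sim _ _ _ _ _,
      h4.trans (hl_a x b c y l s t (by linarith) h hx (by linarith) h1 h3)⟩
  · have hreg' : |b| + 1 ≤ l * (y - x - c - 7 * x) := by
      rcases hreg with h5 | h5
      · exact absurd h (by linarith)
      · exact h5
    have hx1 : 1 ≤ x := by
      have : 0 ≤ l * c := mul_nonneg (by linarith) (by linarith)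
      linarith
    exact ⟨K1 x b c y (cd x c), K1_sim _ _ _ _ _,
      h4.trans (hl_b x b c y l s t hx1 hc hl h hreg' h1 h2 h3)⟩

/-- The narrow link. -/
lemma link_N (R S : Matrix (Fin 2) (Fin 2) ℤ) (l x b c y : ℤ) (hl : 1 ≤ l) (hb : b ≠ 0)
    (hR1 : l * |R 0 0| ≤ R 1 0) (hR2 : l * |R 0 1| ≤ R 1 1)
    (hS1 : InH l (S 0 0) (S 0 1)) (hS2 : InH l (S 1 0) (S 1 1))
    (hP : R * S = !![-x, b; c, y]) (hx : -(l * |b|) ≤ x)
    (hreg : x ≤ l * |b| ∨ |c| + 1 ≤ l * (y - x - |b| - 7 * x)) :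
    ∃ A' : Matrix (Fin 2) (Fin 2) ℤ, Sim A' !![-x, b; c, y] ∧ Q (S * R) A' := by
  have hPt : Sᵀ * Rᵀ = !![-x, c; b, y] := by
    rw [← Matrix.transpose_mul, hP]
    ext i j; fin_cases i <;> fin_cases j <;> simp
  have fin : ∀ A' : Matrix (Fin 2) (Fin 2) ℤ, Sim A' !![-x, c; b, y] → Q (Rᵀ * Sᵀ) A' →
      ∃ A' : Matrix (Fin 2) (Fin 2) ℤ, Sim A' !![-x, b; c, y] ∧ Q (S * R) A' := by
    intro A' h1 h2
    refine ⟨A'ᵀ, ?_, ?_⟩
    · have := h1.transpose
      have e : (!![-x, c; b, y] : Matrix (Fin 2) (Fin 2) ℤ)ᵀ = !![-x, b; c, y] := by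
        ext i j; fin_cases i <;> fin_cases j <;> simp
      rw [e] at this
      exact this
    · have := h2.transpose
      rw [← Matrix.transpose_mul, Matrix.transpose_transpose] at this
      exact this
  rcases lt_or_gt_of_ne hb with hneg | hpos
  · -- flip the sign of the first vector
    have hab : |b| = -b := abs_of_neg hneg
    rw [hab] at hx hreg
    obtain ⟨A', h1, h2⟩ := link_H (!![-1, 0; 0, 1] * Sᵀ) (Rᵀ * !![-1, 0; 0, 1]) l x (-c) (-b) y
      hl (by omega)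
      (by
        obtain ⟨h1, h2, h3⟩ := hS1
        refine ⟨?_, ?_, ?_⟩ <;> simp [Matrix.mul_apply, Fin.sum_univ_two] <;> linarith)
      (by
        obtain ⟨h1, h2, h3⟩ := hS2
        refine ⟨?_, ?_, ?_⟩ <;> simp [Matrix.mul_apply, Fin.sum_univ_two] <;> linarith)
      (by simpa [Matrix.mul_apply, Fin.sum_univ_two] using hR1)
      (by simpa [Matrix.mul_apply, Fin.sum_univ_two] using hR2)
      (by
        have : (!![-1, 0; 0, 1] * Sᵀ) * (Rᵀ * !![-1, 0; 0, 1]) =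
            (!![-1, 0; 0, 1] : Matrix (Fin 2) (Fin 2) ℤ) * (Sᵀ * Rᵀ) * !![-1, 0; 0, 1] := by
          simp only [Matrix.mul_assoc]
        rw [this, hPt]
        ext i j; fin_cases i <;> fin_cases j <;> simp [Matrix.mul_apply, Fin.sum_univ_two])
      hx (by rw [abs_neg]; exact hreg)
    refine fin A' ?_ ?_
    · refine h1.trans ⟨!![-1, 0; 0, 1], by simp [Matrix.det_fin_two], ?_⟩
      ext i j; fin_cases i <;> fin_cases j <;> simp [Matrix.mul_apply, Fin.sum_univ_two]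
    · have : Rᵀ * !![-1, 0; 0, 1] * (!![-1, 0; 0, 1] * Sᵀ) = Rᵀ * Sᵀ := by
        have e : (!![-1, 0; 0, 1] : Matrix (Fin 2) (Fin 2) ℤ) * !![-1, 0; 0, 1] = 1 := by
          ext i j; fin_cases i <;> fin_cases j <;> simp [Matrix.mul_apply, Fin.sum_univ_two]
        calc Rᵀ * !![-1, 0; 0, 1] * (!![-1, 0; 0, 1] * Sᵀ)
            = Rᵀ * (!![-1, 0; 0, 1] * !![-1, 0; 0, 1]) * Sᵀ := by
              simp only [Matrix.mul_assoc]
          _ = Rᵀ * Sᵀ := by rw [e, Matrix.mul_one]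
      rw [this] at h2
      exact h2
  · have hab : |b| = b := abs_of_pos hpos
    rw [hab] at hx hreg
    obtain ⟨A', h1, h2⟩ := link_H Sᵀ Rᵀ l x c b y hl (by omega)
      (by simpa using hS1) (by simpa using hS2) (by simpa using hR1) (by simpa using hR2)
      hPt hx hreg
    exact fin A' h1 h2

end Pool.Agent.Y321.SE2
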