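import Pool.Agent.Y321.SE2.Start

/-!
# The link theorem
-/

set_option autoImplicit false

namespace Pool.Agent.Y321.SE2

open Matrix Pool.Agent.TH441.SSE2

lemma offdiag_pos {A : Matrix (Fin 2) (Fin 2) ℤ} {D : ℤ} (hA : NN A) (hD : A.det = -D)
    (hD0 : 0 < D) : 1 ≤ A 0 1 ∧ 1 ≤ A 1 0 := by
  rw [Matrix.det_fin_two] at hD
  have h1 := mul_nonneg (hA 0 0) (hA 1 1)
  have h2 : 0 < A 0 1 * A 1 0 := by linarith
  have h3 := hA 0 1
  have h4 := hA 1 0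
  constructor
  · by_contra hneg
    have : A 0 1 = 0 := by omega
    rw [this] at h2
    linarith
  · by_contra hneg
    have : A 1 0 = 0 := by omega
    rw [this] at h2
    linarith

lemma sim_Q {A A'' : Matrix (Fin 2) (Fin 2) ℤ} {T D : ℤ} (hA : NN A) (hA'' : NN A'')
    (hs : Sim A'' A) (hT : A.trace = T) (hD : A.det = -D) (hT0 : 0 < T) (hD0 : 0 < D)
    (hTD : 10 * D ≤ T ^ 2) : Q A A'' := by
  obtain ⟨U, hU, hUA⟩ := hs
  have hdet : A''.det = -D := by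
    have h := congrArg Matrix.det hUA
    rw [Matrix.det_mul, Matrix.det_mul, mul_comm] at h
    rw [← hD]
    exact mul_right_cancel₀ hU.ne_zero h
  obtain ⟨p1, p2⟩ := offdiag_pos hA hD hD0
  obtain ⟨p3, p4⟩ := offdiag_pos hA'' hdet hD0
  have k00 := congrFun (congrFun hUA 0) 0
  have k01 := congrFun (congrFun hUA 0) 1
  have k10 := congrFun (congrFun hUA 1) 0
  have k11 := congrFun (congrFun hUA 1) 1
  simp only [Matrix.mul_apply, Fin.sum_univ_two] at k00 k01 k10 k11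
  rw [Matrix.det_fin_two] at hD
  rw [Matrix.trace_fin_two] at hT
  have hUdet : U 0 0 * U 1 1 - U 0 1 * U 1 0 = 1 ∨ U 0 0 * U 1 1 - U 0 1 * U 1 0 = -1 := by
    rw [← Matrix.det_fin_two]
    exact Int.isUnit_iff.mp hU
  rw [Matrix.eta_fin_two A, Matrix.eta_fin_two A'']
  exact similar_core (U 0 0) (U 0 1) (U 1 0) (U 1 1) (A 0 0) (A 0 1) (A 1 0) (A 1 1)
    (A'' 0 0) (A'' 0 1) (A'' 1 0) (A'' 1 1) (hA 0 0) (by linarith) (by linarith) (hA 1 1)
    (hA'' 0 0) (by linarith) (by linarith) (hA'' 1 1) (by rw [hT]; exact hT0)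
    (by linarith) (by rw [hT]; linarith) hUdet k00.symm k01.symm k10.symm k11.symm

lemma inv_mul_of_det_one {U : Matrix (Fin 2) (Fin 2) ℤ} (hU : IsUnit U.det) :
    U⁻¹ * U = 1 ∧ U * U⁻¹ = 1 :=
  ⟨Matrix.nonsing_inv_mul U hU, Matrix.mul_nonsing_inv U hU⟩

lemma conj_eq {X V B : Matrix (Fin 2) (Fin 2) ℤ} (hV : IsUnit V.det) (h : X * V = V * B) :
    V⁻¹ * X * V = B := by
  rw [Matrix.mul_assoc, h, ← Matrix.mul_assoc, (inv_mul_of_det_one hV).1, Matrix.one_mul]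

lemma inv_entries {X V B : Matrix (Fin 2) (Fin 2) ℤ} {T D : ℤ} (hV : IsUnit V.det)
    (h : X * V = V * B) (hT : X.trace = T) (hD : X.det = -D) :
    T = B 0 0 + B 1 1 ∧ D = B 0 1 * B 1 0 - B 0 0 * B 1 1 := by
  have h1 := conj_eq hV h
  constructor
  · rw [← Matrix.trace_fin_two, ← h1, Matrix.trace_mul_cycle, (inv_mul_of_det_one hV).2,
      Matrix.one_mul, hT]
  · have h2 := congrArg Matrix.det h
    rw [Matrix.det_mul, Matrix.det_mul, mul_comm, hD] at h2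
    have h3 : -D = B.det := mul_left_cancel₀ hV.ne_zero h2
    rw [Matrix.det_fin_two] at h3
    linarith

theorem link (A R S : Matrix (Fin 2) (Fin 2) ℤ) (T D : ℤ) (hA : NN A) (hT : A.trace = T)
    (hD : A.det = -D) (hT0 : 0 < T) (hD0 : 0 < D) (hTD : 500 * D ≤ T ^ 2)
    (hns : ¬ IsSquare (T ^ 2 + 4 * D)) (hRS : A = R * S) :
    ∃ B' : Matrix (Fin 2) (Fin 2) ℤ, NN B' ∧ Sim B' (S * R) ∧ Q A B' := by
  obtain ⟨hb, hc⟩ := offdiag_pos hA hD hD0
  have hRdet : R.det ≠ 0 := by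
    intro h
    rw [hRS, Matrix.det_mul, h, zero_mul] at hD
    linarith
  have hT' : (S * R).trace = T := by rw [Matrix.trace_mul_comm, ← hRS]; exact hT
  have hD' : (S * R).det = -D := by rw [Matrix.det_mul, mul_comm, ← Matrix.det_mul, ← hRS, hD]
  -- Hermite form
  obtain ⟨V0, p0, r0, t0, hV0, hRV0, hp0, ht0, hr0, hrp0⟩ := hermite R hRdet
  obtain ⟨B0, hB0⟩ : ∃ B0, B0 = V0⁻¹ * (S * R) * V0 := ⟨_, rfl⟩
  have hB0' : (S * R) * V0 = V0 * B0 := by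
    rw [hB0, ← Matrix.mul_assoc, ← Matrix.mul_assoc, (inv_mul_of_det_one hV0).2, Matrix.one_mul]
  obtain ⟨i1, i2⟩ := inv_entries hV0 hB0' hT' hD'
  have hAB0 : A * (R * V0) = (R * V0) * B0 := by
    rw [Matrix.mul_assoc R V0 B0, ← hB0', ← Matrix.mul_assoc, ← Matrix.mul_assoc, hRS,
      Matrix.mul_assoc R S R]
  have hAeta := Matrix.eta_fin_two A
  rw [hRV0, hAeta, Matrix.eta_fin_two B0] at hAB0
  have hγ0 : 1 ≤ B0 1 0 := by
    have e10 := congrFun (congrFun hAB0 1) 0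
    simp [Matrix.mul_apply, Fin.sum_univ_two] at e10
    have h1 : 0 < A 1 0 * p0 := mul_pos (by linarith) hp0
    rw [e10] at h1
    exact (mul_pos_iff_of_pos_left ht0).mp h1
  obtain ⟨V1, α1, β1, γ1, δ1, hV1, hNN1, hB1, hβ1, hγ1⟩ := mstart T D hns (r0 + 1).toNat
    (A 0 0) (A 0 1) (A 1 0) (A 1 1) p0 r0 0 t0 (B0 0 0) (B0 0 1) (B0 1 0) (B0 1 1) hb hr0 hrp0
    le_rfl ht0.le ht0 hγ0 i1 i2 hAB0 (Int.self_le_toNat _)
  rw [← Matrix.eta_fin_two B0] at hB1 hAB0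
  rw [← hAeta] at hAB0
  -- balanced matrix
  have hV01 : IsUnit (V0 * V1).det := by
    rw [Matrix.det_mul, hV1, mul_one]; exact hV0
  have hB1' : (S * R) * (V0 * V1) = (V0 * V1) * !![α1, β1; γ1, δ1] := by
    rw [← Matrix.mul_assoc, hB0', Matrix.mul_assoc, hB1, Matrix.mul_assoc]
  obtain ⟨j1, j2⟩ := inv_entries hV01 hB1' hT' hD'
  simp at j1 j2
  obtain ⟨V2, α2, β2, γ2, δ2, hV2nn, hV2, hB2, hβ2, hγ2, hbal1, hbal2⟩ :=
    bal_all T D hT0 hD0 (by linarith) hns (β1 + γ1).toNat α1 β1 γ1 δ1 hβ1 hγ1 j1 j2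
      (Int.self_le_toNat _)
  obtain ⟨V, hVd⟩ : ∃ V, V = V0 * V1 * V2 := ⟨_, rfl⟩
  have hVu : IsUnit V.det := by
    rw [hVd, Matrix.det_mul, hV2, mul_one]; exact hV01
  have hBV : (S * R) * V = V * !![α2, β2; γ2, δ2] := by
    rw [hVd, ← Matrix.mul_assoc, hB1', Matrix.mul_assoc, hB2]
    simp only [Matrix.mul_assoc]
  obtain ⟨k1, k2⟩ := inv_entries hVu hBV hT' hD'
  simp at k1 k2
  -- the change of basis
  obtain ⟨R2, hR2⟩ : ∃ R2, R2 = R * V := ⟨_, rfl⟩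
  have hR2' : R2 = !![p0, r0; 0, t0] * V1 * V2 := by
    rw [hR2, hVd, ← hRV0]; simp only [Matrix.mul_assoc]
  have hR2nn : NN R2 := by rw [hR2']; exact NN_mul hNN1 hV2nn
  have hR2det : 0 < R2.det := by
    rw [hR2', Matrix.det_mul, Matrix.det_mul, hV1, hV2, mul_one, mul_one, Matrix.det_fin_two_of]
    have := mul_pos hp0 ht0
    linarith
  have hAR2 : A * R2 = R2 * !![α2, β2; γ2, δ2] := by
    rw [hR2, Matrix.mul_assoc R V, ← hBV, ← Matrix.mul_assoc, ← Matrix.mul_assoc, hRS,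
      Matrix.mul_assoc R S R]
  have hR2eta := Matrix.eta_fin_two R2
  obtain ⟨U, a', b', c', d', p', r', s', t', hU, hAU, hR3, hb', hc', hs', hsp', hr', hrt'⟩ :=
    dom (R2 0 0 + R2 0 1 + R2 1 0 + R2 1 1).toNat (A 0 0) (A 0 1) (A 1 0) (A 1 1) (R2 0 0)
      (R2 0 1) (R2 1 0) (R2 1 1) α2 β2 γ2 δ2 hb hc (hR2nn 0 0) (hR2nn 0 1) (hR2nn 1 0)
      (hR2nn 1 1) (by rw [← Matrix.det_fin_two]; exact hR2det) hβ2 hγ2
      (by rw [← hAeta, ← hR2eta]; exact hAR2) (Int.self_le_toNat _)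
  rw [← hAeta] at hAU
  rw [← hR2eta] at hR3
  have hUu : IsUnit U.det := by rw [hU]; exact isUnit_one
  obtain ⟨l1, l2⟩ := inv_entries hUu hAU hT hD
  simp at l1 l2
  obtain ⟨S3, hS3⟩ : ∃ S3, S3 = V⁻¹ * S * U := ⟨_, rfl⟩
  have hVV := inv_mul_of_det_one hVu
  have hUU := inv_mul_of_det_one hUu
  have hSR3 : S3 * !![p', r'; s', t'] = !![α2, β2; γ2, δ2] := by
    calc S3 * !![p', r'; s', t'] = V⁻¹ * S * (U * !![p', r'; s', t']) := by
          rw [hS3]; simp only [Matrix.mul_assoc]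
      _ = V⁻¹ * (S * R) * V := by rw [← hR3, hR2]; simp only [Matrix.mul_assoc]
      _ = _ := conj_eq hVu hBV
  have hRS3 : !![p', r'; s', t'] * S3 = !![a', b'; c', d'] := by
    calc !![p', r'; s', t'] * S3 = (U⁻¹ * U) * (!![p', r'; s', t'] * S3) := by
          rw [hUU.1, Matrix.one_mul]
      _ = U⁻¹ * ((U * !![p', r'; s', t']) * S3) := by simp only [Matrix.mul_assoc]
      _ = U⁻¹ * (R * (V * V⁻¹) * S * U) := by
          rw [← hR3, hR2, hS3]; simp only [Matrix.mul_assoc]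
      _ = U⁻¹ * A * U := by rw [hVV.2, Matrix.mul_one, ← hRS, Matrix.mul_assoc]
      _ = _ := conj_eq hUu hAU
  have hS3eta := Matrix.eta_fin_two S3
  obtain ⟨e, he⟩ : ∃ e, e = S3 0 0 := ⟨_, rfl⟩
  obtain ⟨f, hf⟩ : ∃ f, f = S3 0 1 := ⟨_, rfl⟩
  obtain ⟨g, hg⟩ : ∃ g, g = S3 1 0 := ⟨_, rfl⟩
  obtain ⟨h, hh⟩ : ∃ h, h = S3 1 1 := ⟨_, rfl⟩
  rw [← he, ← hf, ← hg, ← hh] at hS3eta
  rw [hS3eta] at hSR3 hRS3
  have m00 := congrFun (congrFun hSR3 0) 0
  have m01 := congrFun (congrFun hSR3 0) 1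
  have m10 := congrFun (congrFun hSR3 1) 0
  have m11 := congrFun (congrFun hSR3 1) 1
  have n00 := congrFun (congrFun hRS3 0) 0
  have n01 := congrFun (congrFun hRS3 0) 1
  have n10 := congrFun (congrFun hRS3 1) 0
  have n11 := congrFun (congrFun hRS3 1) 1
  simp [Matrix.mul_apply, Fin.sum_univ_two] at m00 m01 m10 m11 n00 n01 n10 n11
  have hE1 : (p' * t' - r' * s') * (f * g - e * h) = D := by
    rw [k2, ← m00, ← m01, ← m10, ← m11]; ring
  have hq : 0 < p' * t' - r' * s' := by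
    have h1 := congrArg Matrix.det hR3
    rw [Matrix.det_mul, hU, one_mul, Matrix.det_fin_two_of] at h1
    rw [← h1]; exact hR2det
  have hE : 0 < f * g - e * h := by
    rw [← hE1] at hD0
    exact (mul_pos_iff_of_pos_left hq).mp hD0
  have hw : (p' - s') * (e + f) - (t' - r') * (g + h) ≠ 0 := by
    have h1 := sum_ne_zero hns l1 l2
    intro h2
    apply h1
    rw [← n00, ← n01, ← n10, ← n11]
    linear_combination -h2
  obtain ⟨A'', hs1, hs2⟩ := core_link p' r' s' t' e f g h T hs' hsp' hr' hrt'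
    (by rw [n10]; exact hc') (by rw [n01]; exact hb') (by rw [m01]; exact hβ2)
    (by rw [m10]; exact hγ2) (by rw [m00, m11]; exact k1)
    (by rw [m00, k1]; exact hbal1) (by rw [m11, k1]; exact hbal2) hT0 hE
    (by rw [hE1]; exact hTD) hw
  rw [hSR3] at hs2
  rw [hRS3] at hs1
  have hB2nn : NN (!![α2, β2; γ2, δ2] : Matrix (Fin 2) (Fin 2) ℤ) := by
    intro i j; fin_cases i <;> fin_cases j <;> simp <;> linarith
  have hA''nn := Q_NN hs2 hB2nn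
  have hsimA : Sim A'' A := hs1.trans ⟨U, hUu, hAU.symm⟩
  have hQ := sim_Q hA hA''nn hsimA hT hD hT0 hD0 (by linarith)
  exact ⟨_, hB2nn, ⟨V, hVu, hBV.symm⟩, hQ.trans hs2.symm⟩

end Pool.Agent.Y321.SE2
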