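import Pool.Agent.Y321.SE2.Walk

/-!
# Hermite form and the first basis of the sublattice inside the quadrant
-/

set_option autoImplicit false

namespace Pool.Agent.Y321.SE2

open Matrix Pool.Agent.TH441.SSE2

/-- Column Hermite form of a nonsingular `2 × 2` integer matrix. -/
lemma hermite (R : Matrix (Fin 2) (Fin 2) ℤ) (hR : R.det ≠ 0) :
    ∃ (V : Matrix (Fin 2) (Fin 2) ℤ) (p r t : ℤ), IsUnit V.det ∧ R * V = !![p, r; 0, t] ∧
      0 < p ∧ 0 < t ∧ 0 ≤ r ∧ r < p := by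
  obtain ⟨g, hg⟩ : ∃ g : ℤ, g = Int.gcd (R 1 0) (R 1 1) := ⟨_, rfl⟩
  have hne : R 1 0 ≠ 0 ∨ R 1 1 ≠ 0 := by
    by_contra hneg
    push Not at hneg
    apply hR
    rw [Matrix.det_fin_two, hneg.1, hneg.2]; ring
  have hg0 : 0 < g := by
    rw [hg]
    exact_mod_cast Int.gcd_pos_iff.mpr hne
  have hbez := Int.gcd_eq_gcd_ab (R 1 0) (R 1 1)
  rw [← hg] at hbez
  obtain ⟨s1, hs1⟩ : g ∣ R 1 0 := by rw [hg]; exact Int.gcd_dvd_left ..
  obtain ⟨t1, ht1⟩ : g ∣ R 1 1 := by rw [hg]; exact Int.gcd_dvd_right ..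
  obtain ⟨u, hu⟩ : ∃ u, u = Int.gcdA (R 1 0) (R 1 1) := ⟨_, rfl⟩
  obtain ⟨v, hv⟩ : ∃ v, v = Int.gcdB (R 1 0) (R 1 1) := ⟨_, rfl⟩
  rw [← hu, ← hv] at hbez
  have hdet1 : s1 * u + t1 * v = 1 := by
    have : g * (s1 * u + t1 * v) = g * 1 := by
      rw [hs1, ht1] at hbez
      linear_combination -hbez
    exact mul_left_cancel₀ hg0.ne' this
  obtain ⟨p1, hp1⟩ : ∃ p1, p1 = R 0 0 * t1 - R 0 1 * s1 := ⟨_, rfl⟩
  obtain ⟨r1, hr1⟩ : ∃ r1, r1 = R 0 0 * u + R 0 1 * v := ⟨_, rfl⟩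
  have hp1g : p1 * g = R.det := by
    rw [Matrix.det_fin_two, hp1, hs1, ht1]; ring
  have hp10 : p1 ≠ 0 := by
    intro h
    apply hR
    rw [← hp1g, h, zero_mul]
  obtain ⟨ε, hε, hpos⟩ : ∃ ε : ℤ, (ε = 1 ∨ ε = -1) ∧ 0 < ε * p1 := by
    rcases lt_or_gt_of_ne hp10 with h | h
    · exact ⟨-1, Or.inr rfl, by linarith⟩
    · exact ⟨1, Or.inl rfl, by linarith⟩
  obtain ⟨k, hk⟩ : ∃ k, k = r1 / (ε * p1) := ⟨_, rfl⟩
  have hm := Int.emod_add_mul_ediv r1 (ε * p1)
  have hm1 := Int.emod_nonneg r1 hpos.ne'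
  have hm2 := Int.emod_lt_of_pos r1 hpos
  rw [← hk] at hm
  refine ⟨!![ε * t1, u - k * (ε * t1); -(ε * s1), v + k * (ε * s1)], ε * p1, r1 - k * (ε * p1), g,
    ?_, ?_, hpos, hg0, by linarith, by linarith⟩
  · rw [Matrix.det_fin_two]
    have e : (!![ε * t1, u - k * (ε * t1); -(ε * s1), v + k * (ε * s1)] :
        Matrix (Fin 2) (Fin 2) ℤ) 0 0 * (!![ε * t1, u - k * (ε * t1); -(ε * s1),
        v + k * (ε * s1)] : Matrix (Fin 2) (Fin 2) ℤ) 1 1 -
        (!![ε * t1, u - k * (ε * t1); -(ε * s1), v + k * (ε * s1)] :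
        Matrix (Fin 2) (Fin 2) ℤ) 0 1 * (!![ε * t1, u - k * (ε * t1); -(ε * s1),
        v + k * (ε * s1)] : Matrix (Fin 2) (Fin 2) ℤ) 1 0 = ε := by
      simp
      linear_combination ε * hdet1
    rw [e]
    rcases hε with h | h <;> rw [h]
    · exact isUnit_one
    · exact isUnit_one.neg
  · ext i j; fin_cases i <;> fin_cases j
    · simp [Matrix.mul_apply, Fin.sum_univ_two]
      rw [hp1]; ring
    · simp [Matrix.mul_apply, Fin.sum_univ_two]
      rw [hr1, hp1]; ring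
    · simp [Matrix.mul_apply, Fin.sum_univ_two]
      rw [hs1, ht1]; ring
    · simp [Matrix.mul_apply, Fin.sum_univ_two]
      rw [hs1, ht1]
      linear_combination g * hdet1

/-- The first basis of the sublattice, inside the quadrant, on the river. -/
lemma mstart (T D : ℤ) (hns : ¬ IsSquare (T ^ 2 + 4 * D)) (n : ℕ) :
    ∀ (a b c d p r s t α β γ δ : ℤ), 1 ≤ b → 0 ≤ r → r < p → 0 ≤ s → s ≤ t → 0 < t → 1 ≤ γ →
    T = α + δ → D = β * γ - α * δ →
    !![a, b; c, d] * !![p, r; s, t] = !![p, r; s, t] * !![α, β; γ, δ] → r + 1 ≤ n →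
    ∃ (V : Matrix (Fin 2) (Fin 2) ℤ) (α' β' γ' δ' : ℤ), V.det = 1 ∧
      NN (!![p, r; s, t] * V) ∧ !![α, β; γ, δ] * V = V * !![α', β'; γ', δ'] ∧
      1 ≤ β' ∧ 1 ≤ γ' := by
  induction n with
  | zero =>
    intro a b c d p r s t α β γ δ _ hr _ _ _ _ _ _ _ _ hn
    push_cast at hn
    linarith
  | succ n ih =>
    intro a b c d p r s t α β γ δ hb hr hrp hs hst ht hγ hT hD hAR hn
    push_cast at hn
    have hβ := (off_ne_zero hns hT hD).1
    rcases lt_or_gt_of_ne hβ with h1 | h1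
    · have e01 := congrFun (congrFun hAR 0) 1
      simp [Matrix.mul_apply, Fin.sum_univ_two] at e01
      have hr1 : 1 ≤ r := by
        by_contra hneg
        push Not at hneg
        have h0 : r = 0 := by linarith
        rw [h0] at e01
        have h2 : 0 < b * t := mul_pos (by linarith) ht
        have h3 : p * β ≤ 0 := mul_nonpos_of_nonneg_of_nonpos (by linarith) h1.le
        linarith
      obtain ⟨k1, k2⟩ := ceil_spec p r hr1
      obtain ⟨k, hk⟩ : ∃ k, k = (p + r - 1) / r := ⟨_, rfl⟩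
      rw [← hk] at k1 k2
      have hk2 : 2 ≤ k := by
        by_contra hneg
        push Not at hneg
        have : r * k ≤ r * 1 := mul_le_mul_of_nonneg_left (by linarith) (by linarith)
        linarith
      have hkt : 2 * t ≤ k * t := mul_le_mul_of_nonneg_right hk2 ht.le
      have e : (!![p, r; s, t] * !![0, -1; 1, k] : Matrix (Fin 2) (Fin 2) ℤ) =
          !![r, k * r - p; t, k * t - s] := by
        ext i j; fin_cases i <;> fin_cases j <;>
          simp [Matrix.mul_apply, Fin.sum_univ_two] <;> ring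
      have e' : (!![α, β; γ, δ] * !![0, -1; 1, k] : Matrix (Fin 2) (Fin 2) ℤ) =
          !![0, -1; 1, k] * !![δ + k * β, k ^ 2 * β + k * (δ - α) - γ; -β, α - k * β] := by
        ext i j; fin_cases i <;> fin_cases j <;>
          simp [Matrix.mul_apply, Fin.sum_univ_two] <;> ring
      obtain ⟨V, α', β', γ', δ', h2, h3, h4, h5, h6⟩ :=
        ih a b c d r (k * r - p) t (k * t - s) (δ + k * β) (k ^ 2 * β + k * (δ - α) - γ)
          (-β) (α - k * β) hb (by linarith) (by linarith) ht.le (by linarith) (by linarith)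
          (by linarith) (by linarith) (by rw [hD]; ring) (by
            rw [← e, ← Matrix.mul_assoc, hAR, Matrix.mul_assoc, e', Matrix.mul_assoc])
          (by linarith)
      refine ⟨!![0, -1; 1, k] * V, α', β', γ', δ', ?_, ?_, ?_, h5, h6⟩
      · rw [Matrix.det_mul, h2]; simp [Matrix.det_fin_two]
      · rw [← Matrix.mul_assoc, e]; exact h3
      · rw [← Matrix.mul_assoc, e', Matrix.mul_assoc, h4, Matrix.mul_assoc]
    · refine ⟨1, α, β, γ, δ, by simp, ?_, by simp, by linarith, hγ⟩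
      rw [Matrix.mul_one]
      intro i j; fin_cases i <;> fin_cases j <;> simp <;> linarith

end Pool.Agent.Y321.SE2
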