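import Pool.Agent.Y321.SE2.CoreLink

/-!
# Walking to a balanced matrix, and reducing to a dominant change of basis
-/

set_option autoImplicit false

namespace Pool.Agent.Y321.SE2

open Matrix Pool.Agent.TH441.SSE2

/-- From `[[α, β], [γ, δ]]` a balanced matrix is reached by a nonnegative change of basis. -/
def Bal (α β γ δ : ℤ) : Prop :=
  ∃ (V : Matrix (Fin 2) (Fin 2) ℤ) (α' β' γ' δ' : ℤ), NN V ∧ V.det = 1 ∧
    !![α, β; γ, δ] * V = V * !![α', β'; γ', δ'] ∧ 1 ≤ β' ∧ 1 ≤ γ' ∧
    α' + δ' ≤ 5 * α' ∧ α' + δ' ≤ 5 * δ'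

lemma NN_mul {a b c : ℕ} {X : Matrix (Fin a) (Fin b) ℤ} {Y : Matrix (Fin b) (Fin c) ℤ}
    (hX : NN X) (hY : NN Y) : NN (X * Y) := by
  intro i j
  rw [Matrix.mul_apply]
  exact Finset.sum_nonneg fun k _ => mul_nonneg (hX i k) (hY k j)

lemma Bal.of (α β γ δ : ℤ) (hβ : 1 ≤ β) (hγ : 1 ≤ γ) (h1 : α + δ ≤ 5 * α)
    (h2 : α + δ ≤ 5 * δ) : Bal α β γ δ :=
  ⟨1, α, β, γ, δ, fun i j => by fin_cases i <;> fin_cases j <;> simp, by simp, by simp,
    hβ, hγ, h1, h2⟩

lemma Bal.step {α β γ δ α₁ β₁ γ₁ δ₁ : ℤ} (V₁ : Matrix (Fin 2) (Fin 2) ℤ) (hV : NN V₁)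
    (hd : V₁.det = 1) (hB : !![α, β; γ, δ] * V₁ = V₁ * !![α₁, β₁; γ₁, δ₁])
    (h : Bal α₁ β₁ γ₁ δ₁) : Bal α β γ δ := by
  obtain ⟨V, α', β', γ', δ', h1, h2, h3, h4, h5, h6, h7⟩ := h
  refine ⟨V₁ * V, α', β', γ', δ', NN_mul hV h1, by rw [Matrix.det_mul, hd, h2, one_mul], ?_,
    h4, h5, h6, h7⟩
  rw [← Matrix.mul_assoc, hB, Matrix.mul_assoc, h3, Matrix.mul_assoc]

lemma Bal.step1 {α β γ δ : ℤ} (h : Bal (α - γ) (α + β - γ - δ) γ (γ + δ)) : Bal α β γ δ := by
  refine Bal.step !![1, 1; 0, 1] ?_ (by simp [Matrix.det_fin_two]) ?_ h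
  · intro i j; fin_cases i <;> fin_cases j <;> simp
  · ext i j; fin_cases i <;> fin_cases j <;> simp [Matrix.mul_apply, Fin.sum_univ_two] <;> ring

lemma Bal.step2 {α β γ δ : ℤ} (h : Bal (α + β) β (γ + δ - α - β) (δ - β)) : Bal α β γ δ := by
  refine Bal.step !![1, 0; 1, 1] ?_ (by simp [Matrix.det_fin_two]) ?_ h
  · intro i j; fin_cases i <;> fin_cases j <;> simp
  · ext i j; fin_cases i <;> fin_cases j <;> simp [Matrix.mul_apply, Fin.sum_univ_two] <;> ring

lemma Bal.swap {α β γ δ : ℤ} (h : Bal δ γ β α) : Bal α β γ δ := by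
  obtain ⟨V, α', β', γ', δ', h1, h2, h3, h4, h5, h6, h7⟩ := h
  refine ⟨!![V 1 1, V 1 0; V 0 1, V 0 0], δ', γ', β', α', ?_, ?_, ?_, h5, h4, by linarith,
    by linarith⟩
  · intro i j
    have a1 := h1 0 0
    have a2 := h1 0 1
    have a3 := h1 1 0
    have a4 := h1 1 1
    fin_cases i <;> fin_cases j <;> simpa
  · rw [Matrix.det_fin_two] at h2 ⊢
    simp
    linarith
  · have e00 := congrFun (congrFun h3 0) 0
    have e01 := congrFun (congrFun h3 0) 1
    have e10 := congrFun (congrFun h3 1) 0
    have e11 := congrFun (congrFun h3 1) 1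
    simp [Matrix.mul_apply, Fin.sum_univ_two] at e00 e01 e10 e11
    ext i j; fin_cases i <;> fin_cases j <;>
      simp [Matrix.mul_apply, Fin.sum_univ_two] <;> linarith

lemma bal_lo (n : ℕ) : ∀ (α β γ δ : ℤ), 1 ≤ β → 1 ≤ γ → 0 < α + δ → 5 * α < α + δ →
    5 * β ≤ 3 * (α + δ) → α + δ - 5 * α ≤ n → Bal α β γ δ := by
  induction n with
  | zero => intro α β γ δ _ _ _ h1 _ h2; push_cast at h2; linarith
  | succ n ih =>
    intro α β γ δ hβ hγ hT h1 h2 h3
    push_cast at h3
    have hw : 1 ≤ γ + δ - α - β := by
      have : 0 < δ - α - β := by linarith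
      linarith
    apply Bal.step2
    have e : α + β + (δ - β) = α + δ := by ring
    rcases le_or_gt (α + δ) (5 * (α + β)) with h4 | h4
    · exact Bal.of _ _ _ _ hβ hw (by linarith) (by linarith)
    · exact ih _ _ _ _ hβ hw (by linarith) (by linarith) (by linarith) (by linarith)

lemma bal_lo' (α β γ δ : ℤ) (hβ : 1 ≤ β) (hγ : 1 ≤ γ) (hT : 0 < α + δ) (h1 : 5 * α < α + δ)
    (h2 : 5 * β ≤ 3 * (α + δ)) : Bal α β γ δ :=
  bal_lo (α + δ - 5 * α).toNat α β γ δ hβ hγ hT h1 h2 (Int.self_le_toNat _)

lemma sum_ne_zero {T D a b c d : ℤ} (hns : ¬ IsSquare (T ^ 2 + 4 * D)) (hT : T = a + d)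
    (hD : D = b * c - a * d) : c + d - a - b ≠ 0 := by
  intro h
  apply hns
  refine ⟨2 * b + a - d, ?_⟩
  have hc : c = a + b - d := by linarith
  rw [hT, hD, hc]; ring

lemma off_ne_zero {T D a b c d : ℤ} (hns : ¬ IsSquare (T ^ 2 + 4 * D)) (hT : T = a + d)
    (hD : D = b * c - a * d) : b ≠ 0 ∧ c ≠ 0 := by
  constructor
  · intro h
    apply hns
    refine ⟨a - d, ?_⟩
    rw [hT, hD, h]; ring
  · intro h
    apply hns
    refine ⟨a - d, ?_⟩
    rw [hT, hD, h]; ring

/-- Every matrix on the river reaches a balanced one. -/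
lemma bal_all (T D : ℤ) (hT0 : 0 < T) (hD0 : 0 < D) (hTD : 500 * D ≤ T ^ 2)
    (hns : ¬ IsSquare (T ^ 2 + 4 * D)) (n : ℕ) : ∀ (α β γ δ : ℤ), 1 ≤ β → 1 ≤ γ →
    T = α + δ → D = β * γ - α * δ → β + γ ≤ n → Bal α β γ δ := by
  induction n with
  | zero => intro α β γ δ h1 h2 _ _ h3; push_cast at h3; linarith
  | succ n ih =>
    have main : ∀ (α β γ δ : ℤ), 1 ≤ β → 1 ≤ γ → T = α + δ → D = β * γ - α * δ →
        β + γ ≤ n + 1 → 5 * α < T → Bal α β γ δ := by
      intro α β γ δ hβ hγ hT hD hn hα
      rcases le_or_gt (5 * β) (3 * T) with h1 | h1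
      · exact bal_lo' α β γ δ hβ hγ (by linarith) (by linarith) (by linarith)
      · have hw := sum_ne_zero hns hT hD
        rcases lt_or_gt_of_ne hw with h2 | h2
        · -- type 1
          apply Bal.step1
          exact ih _ _ _ _ (by linarith) hγ (by linarith) (by rw [hD]; ring) (by linarith)
        · -- type 2
          apply Bal.step2
          have hα₂ : T ≤ 5 * (α + β) := by
            rcases le_or_gt 0 α with h3 | h3
            · linarith
            · have h4 : 0 < β * γ := mul_pos (by linarith) (by linarith)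
              have h5 : (-α) * T ≤ D := by
                have h6 : 0 ≤ (-α) * (-α) := mul_nonneg (by linarith) (by linarith)
                have e : (-α) * T = (-α) * δ - (-α) * (-α) := by rw [hT]; ring
                have e' : D = β * γ + (-α) * δ := by rw [hD]; ring
                linarith
              have h7 : T * (500 * (-α)) ≤ T * T := by
                have e : T * (500 * (-α)) = 500 * ((-α) * T) := by ring
                have e' : T ^ 2 = T * T := by ring
                linarith
              have h8 := le_of_mul_le hT0 h7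
              linarith
          rcases le_or_gt T (5 * (δ - β)) with h3 | h3
          · exact Bal.of _ _ _ _ hβ (by linarith) (by linarith) (by linarith)
          · -- `δ₂` small
            have hinv : β * (γ + δ - α - β) = D + (α + β) * (δ - β) := by rw [hD]; ring
            have hbd : 5 * ((α + β) * (δ - β)) ≤ T * T := by
              rcases le_or_gt (δ - β) 0 with h4 | h4
              · have h5 : (α + β) * (δ - β) ≤ 0 :=
                  mul_nonpos_of_nonneg_of_nonpos (by linarith) h4
                have h6 : 0 ≤ T * T := mul_self_nonneg T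
                linarith
              · have h5 : (α + β) * (5 * (δ - β)) ≤ T * T :=
                  mul_le_mul (by linarith) h3.le (by linarith) (by linarith)
                linarith
            have h9 : 5 * (γ + δ - α - β) ≤ 3 * T := by
              have h4 : (3 * T) * (γ + δ - α - β) ≤ (5 * β) * (γ + δ - α - β) :=
                mul_le_mul_of_nonneg_right h1.le (by linarith)
              have h5 : T * (5 * (γ + δ - α - β)) ≤ T * (3 * T) := by
                have e1 : (5 * β) * (γ + δ - α - β) = 5 * (β * (γ + δ - α - β)) := by ring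
                have e2 : (3 * T) * (γ + δ - α - β) = 3 * (T * (γ + δ - α - β)) := by ring
                have e3 : T * (5 * (γ + δ - α - β)) = 5 * (T * (γ + δ - α - β)) := by ring
                have e4 : T * (3 * T) = 3 * (T * T) := by ring
                have e5 : T ^ 2 = T * T := by ring
                rw [e1, hinv, e2] at h4
                rw [e3, e4]
                linarith
              exact le_of_mul_le hT0 h5
            apply Bal.swap
            exact bal_lo' _ _ _ _ (by linarith) hβ (by linarith) (by linarith) (by linarith)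
    intro α β γ δ hβ hγ hT hD hn
    push_cast at hn
    rcases lt_or_ge (5 * α) T with h1 | h1
    · exact main α β γ δ hβ hγ hT hD hn h1
    · rcases lt_or_ge (5 * δ) T with h2 | h2
      · apply Bal.swap
        exact main δ γ β α hγ hβ (by linarith) (by rw [hD]; ring) (by linarith) h2
      · exact Bal.of _ _ _ _ hβ hγ (by linarith) (by linarith)

/-- Reduction to a dominant change of basis. -/
lemma dom (n : ℕ) : ∀ (a b c d p r s t α β γ δ : ℤ), 1 ≤ b → 1 ≤ c → 0 ≤ p → 0 ≤ r → 0 ≤ s →
    0 ≤ t → 0 < p * t - r * s → 1 ≤ β → 1 ≤ γ →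
    !![a, b; c, d] * !![p, r; s, t] = !![p, r; s, t] * !![α, β; γ, δ] → p + r + s + t ≤ n →
    ∃ (U : Matrix (Fin 2) (Fin 2) ℤ) (a' b' c' d' p' r' s' t' : ℤ), U.det = 1 ∧
      !![a, b; c, d] * U = U * !![a', b'; c', d'] ∧ !![p, r; s, t] = U * !![p', r'; s', t'] ∧
      1 ≤ b' ∧ 1 ≤ c' ∧ 0 ≤ s' ∧ s' < p' ∧ 0 ≤ r' ∧ r' < t' := by
  induction n with
  | zero =>
    intro a b c d p r s t α β γ δ _ _ hp hr hs ht hdet _ _ _ hn
    push_cast at hn
    have h1 : p = 0 := by linarith
    have h2 : r = 0 := by linarith
    rw [h1, h2] at hdet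
    linarith
  | succ n ih =>
    intro a b c d p r s t α β γ δ hb hc hp hr hs ht hdet hβ hγ hAR hn
    push_cast at hn
    have e00 := congrFun (congrFun hAR 0) 0
    have e01 := congrFun (congrFun hAR 0) 1
    have e10 := congrFun (congrFun hAR 1) 0
    have e11 := congrFun (congrFun hAR 1) 1
    simp [Matrix.mul_apply, Fin.sum_univ_two] at e00 e01 e10 e11
    by_cases h1 : s ≤ p ∧ t ≤ r
    · obtain ⟨h1, h2⟩ := h1
      have hst : 1 ≤ s + t := by
        by_contra hneg
        push Not at hneg
        have h3 : s = 0 := by linarith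
        have h4 : t = 0 := by linarith
        rw [h3, h4] at hdet
        linarith
      have hb' : 1 ≤ a + b - c - d := by
        by_contra hneg
        push Not at hneg
        have f2 : c * (r - t) * (r - t) + (c + d - (a - c)) * ((r - t) * t) -
            (a + b - c - d) * (t * t) = -(p * t - r * s) * β := by
          linear_combination r * e11 - t * e01
        have g1 : 0 ≤ c * (r - t) * (r - t) :=
          mul_nonneg (mul_nonneg (by linarith) (by linarith)) (by linarith)
        have g2 : 0 ≤ (c + d - (a - c)) * ((r - t) * t) :=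
          mul_nonneg (by linarith) (mul_nonneg (by linarith) ht)
        have g3 : 0 ≤ (-(a + b - c - d)) * (t * t) :=
          mul_nonneg (by linarith) (mul_self_nonneg t)
        have g4 : 0 < (p * t - r * s) * β := mul_pos hdet (by linarith)
        linarith
      obtain ⟨U, a', b', c', d', p', r', s', t', k1, k2, k3, k4⟩ :=
        ih (a - c) (a + b - c - d) c (c + d) (p - s) (r - t) s t α β γ δ hb' hc (by linarith)
          (by linarith) hs ht (by
            have e : (p - s) * t - (r - t) * s = p * t - r * s := by ring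
            rw [e]; exact hdet) hβ hγ (by
            ext i j; fin_cases i <;> fin_cases j <;>
              simp [Matrix.mul_apply, Fin.sum_univ_two] <;> linarith) (by linarith)
      refine ⟨!![1, 1; 0, 1] * U, a', b', c', d', p', r', s', t', ?_, ?_, ?_, k4⟩
      · rw [Matrix.det_mul, k1]; simp [Matrix.det_fin_two]
      · have e : (!![a, b; c, d] : Matrix (Fin 2) (Fin 2) ℤ) * !![1, 1; 0, 1] =
            !![1, 1; 0, 1] * !![a - c, a + b - c - d; c, c + d] := by
          ext i j; fin_cases i <;> fin_cases j <;>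
            simp [Matrix.mul_apply, Fin.sum_univ_two] <;> ring
        rw [← Matrix.mul_assoc, e, Matrix.mul_assoc, k2, Matrix.mul_assoc]
      · rw [Matrix.mul_assoc, ← k3]
        ext i j; fin_cases i <;> fin_cases j <;>
            simp [Matrix.mul_apply, Fin.sum_univ_two]
    · by_cases h2 : p ≤ s ∧ r ≤ t
      · obtain ⟨h2, h3⟩ := h2
        have hpr : 1 ≤ p + r := by
          by_contra hneg
          push Not at hneg
          have h4 : p = 0 := by linarith
          have h5 : r = 0 := by linarith
          rw [h4, h5] at hdet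
          linarith
        have hc' : 1 ≤ c + d - a - b := by
          by_contra hneg
          push Not at hneg
          have f2 : (c + d - a - b) * (p * p) + (d - b - (a + b)) * (p * (s - p)) -
              b * (s - p) * (s - p) = (p * t - r * s) * γ := by
            linear_combination p * e10 - s * e00
          have g1 : 0 ≤ b * (s - p) * (s - p) :=
            mul_nonneg (mul_nonneg (by linarith) (by linarith)) (by linarith)
          have g2 : 0 ≤ (-(d - b - (a + b))) * (p * (s - p)) :=
            mul_nonneg (by linarith) (mul_nonneg hp (by linarith))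
          have g3 : 0 ≤ (-(c + d - a - b)) * (p * p) :=
            mul_nonneg (by linarith) (mul_self_nonneg p)
          have g4 : 0 < (p * t - r * s) * γ := mul_pos hdet (by linarith)
          linarith
        obtain ⟨U, a', b', c', d', p', r', s', t', k1, k2, k3, k4⟩ :=
          ih (a + b) b (c + d - a - b) (d - b) p r (s - p) (t - r) α β γ δ hb hc' hp
            hr (by linarith) (by linarith) (by
              have e : p * (t - r) - r * (s - p) = p * t - r * s := by ring
              rw [e]; exact hdet) hβ hγ (by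
              ext i j; fin_cases i <;> fin_cases j <;>
                simp [Matrix.mul_apply, Fin.sum_univ_two] <;> linarith) (by linarith)
        refine ⟨!![1, 0; 1, 1] * U, a', b', c', d', p', r', s', t', ?_, ?_, ?_, k4⟩
        · rw [Matrix.det_mul, k1]; simp [Matrix.det_fin_two]
        · have e : (!![a, b; c, d] : Matrix (Fin 2) (Fin 2) ℤ) * !![1, 0; 1, 1] =
              !![1, 0; 1, 1] * !![a + b, b; c + d - a - b, d - b] := by
            ext i j; fin_cases i <;> fin_cases j <;>
              simp [Matrix.mul_apply, Fin.sum_univ_two] <;> ring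
          rw [← Matrix.mul_assoc, e, Matrix.mul_assoc, k2, Matrix.mul_assoc]
        · rw [Matrix.mul_assoc, ← k3]
          ext i j; fin_cases i <;> fin_cases j <;>
              simp [Matrix.mul_apply, Fin.sum_univ_two]
      · -- dominant
        have hcase : s < p ∧ r < t := by
          rcases lt_or_ge s p with h3 | h3
          · exact ⟨h3, by
              by_contra h4
              push Not at h4
              exact h1 ⟨h3.le, h4⟩⟩
          · exfalso
            have h4 : t < r := by
              by_contra h4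
              push Not at h4
              exact h2 ⟨h3, h4⟩
            have h5 : p * t ≤ s * r := mul_le_mul h3 h4.le ht hs
            linarith
        exact ⟨1, a, b, c, d, p, r, s, t, by simp, by simp, by simp, hb, hc, hs, hcase.1, hr,
          hcase.2⟩

end Pool.Agent.Y321.SE2
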